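import Mathlib

open Finset MeasureTheory ProbabilityTheory

namespace Pool.Agent.Lib.MP_ba8b4a_pr

/-- For costs `C` on the edges of the complete graph on `Fin n` (only the entries `C s(i,j)` with
`i ≠ j` are used), the number of neighbours `l ≠ i` of `i` whose edge to `i` is cheaper than the
edge `{i, j}`. -/
noncomputable def rank {n : ℕ} (C : Sym2 (Fin n) → ℝ) (i j : Fin n) : ℕ :=
  #{l : Fin n | l ≠ i ∧ C s(i, l) < C s(i, j)}

/-- The mutual-preference graph: the edge `{i, j}` is kept when it is among the `k` cheapest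
edges at `i` and among the `k` cheapest edges at `j`. -/
noncomputable def mutualGraph {n : ℕ} (k : ℕ) (C : Sym2 (Fin n) → ℝ) : SimpleGraph (Fin n) where
  Adj i j := i ≠ j ∧ rank C i j < k ∧ rank C j i < k
  symm := ⟨fun _ _ h => ⟨h.1.symm, h.2.2, h.2.1⟩⟩
  loopless := ⟨fun _ h => h.1 rfl⟩

/-- The law of the costs: independent, exponentially distributed with rate `1 / n`. -/
noncomputable def costLaw (n : ℕ) : Measure (Sym2 (Fin n) → ℝ) :=
  Measure.pi fun _ => expMeasure (1 / (n : ℝ))

end Pool.Agent.Lib.MP_ba8b4a_pr
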