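import Mathlib
import Pool.Agent.Lib.MP_ba8b4a_pr.Model

section

open Finset

namespace Pool.Agent.Lib.MP_ba8b4a_pr

variable {n : ℕ}

/-- neighbours of `v` in the graph with edge set `A` -/
def nbr (A : Finset (Sym2 (Fin n))) (v : Fin n) : Finset (Fin n) :=
  univ.filter (fun l => l ≠ v ∧ s(v, l) ∈ A)

/-- edges of cost less than `t` -/
noncomputable def below (t : ℝ) (C : Sym2 (Fin n) → ℝ) : Finset (Sym2 (Fin n)) :=
  univ.filter (fun e => C e < t)

/-- neighbours of degree more than `k` -/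
def heavyNbr (A : Finset (Sym2 (Fin n))) (k : ℕ) (v : Fin n) : Finset (Fin n) :=
  (nbr A v).filter (fun w => k < #(nbr A w))

lemma mem_nbr {A : Finset (Sym2 (Fin n))} {v l : Fin n} : l ∈ nbr A v ↔ l ≠ v ∧ s(v, l) ∈ A := by
  simp [nbr]

lemma mem_nbr_comm {A : Finset (Sym2 (Fin n))} {v l : Fin n} : l ∈ nbr A v ↔ v ∈ nbr A l := by
  rw [mem_nbr, mem_nbr, Sym2.eq_swap, ne_comm]

lemma mem_below {t : ℝ} {C : Sym2 (Fin n) → ℝ} {e : Sym2 (Fin n)} : e ∈ below t C ↔ C e < t := by
  simp [below]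

/-- few of the cheap edges at `v` are not among its `k` cheapest ones -/
lemma not_preferred_card (t : ℝ) (C : Sym2 (Fin n) → ℝ) (k : ℕ) (v : Fin n) :
    #{l ∈ nbr (below t C) v | k ≤ rank C v l} ≤ #(nbr (below t C) v) - k := by
  classical
  set D := nbr (below t C) v with hD
  set U := D.filter (fun l => k ≤ rank C v l) with hU
  rcases U.eq_empty_or_nonempty with h | h
  · rw [h]; simp
  · obtain ⟨j, hj, hmin⟩ := exists_min_image U (fun l => C s(v, l)) h
    have hjD : j ∈ D := (mem_filter.mp hj).1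
    have hjt : C s(v, j) < t := by
      have := (mem_nbr.mp hjD).2
      exact mem_below.mp this
    have hsub : univ.filter (fun l => l ≠ v ∧ C s(v, l) < C s(v, j)) ⊆ D \ U := by
      intro l hl
      simp only [mem_filter, mem_univ, true_and] at hl
      rw [mem_sdiff]
      refine ⟨mem_nbr.mpr ⟨hl.1, mem_below.mpr (hl.2.trans hjt)⟩, fun hlU => ?_⟩
      exact absurd (hmin l hlU) (not_le.mpr hl.2)
    have h1 : k ≤ #(D \ U) := (mem_filter.mp hj).2.trans (card_le_card hsub)
    have h2 : #(D \ U) + #U = #D := card_sdiff_add_card_eq_card (filter_subset _ _)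
    omega

lemma heavy_of_not_preferred {t : ℝ} {C : Sym2 (Fin n) → ℝ} {k : ℕ} {u w : Fin n}
    (hw : w ∈ nbr (below t C) u) (h : k ≤ rank C w u) : k < #(nbr (below t C) w) := by
  have h1 := not_preferred_card t C k w
  have h2 : 0 < #{l ∈ nbr (below t C) w | k ≤ rank C w l} := by
    rw [card_pos]
    exact ⟨u, mem_filter.mpr ⟨mem_nbr_comm.mp hw, h⟩⟩
  omega

/-- edges of cost `< t` from `u` leaving a closed set -/
lemma out_le {t : ℝ} {C : Sym2 (Fin n) → ℝ} {k : ℕ} {S : Finset (Fin n)}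
    (hS : ∀ u ∈ S, ∀ w ∉ S, ¬ (mutualGraph k C).Adj u w) {u : Fin n} (hu : u ∈ S) :
    #(nbr (below t C) u \ S) ≤
      (#(nbr (below t C) u) - k) + #(heavyNbr (below t C) k u) := by
  classical
  have h1 : nbr (below t C) u \ S ⊆ {l ∈ nbr (below t C) u | k ≤ rank C u l} ∪
      heavyNbr (below t C) k u := by
    intro w hw
    rw [mem_sdiff] at hw
    have h2 := hS u hu w hw.2
    have hne : u ≠ w := fun h => hw.2 (h ▸ hu)
    rw [mem_union]
    by_cases h3 : k ≤ rank C u w
    · left; exact mem_filter.mpr ⟨hw.1, h3⟩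
    · right
      have h4 : k ≤ rank C w u := by
        by_contra h5
        exact h2 ⟨hne, not_le.mp h3, not_le.mp h5⟩
      exact mem_filter.mpr ⟨hw.1, heavy_of_not_preferred hw.1 h4⟩
  calc #(nbr (below t C) u \ S) ≤ _ := card_le_card h1
    _ ≤ _ := card_union_le _ _
    _ ≤ _ := Nat.add_le_add_right (not_preferred_card t C k u) _

/-- edges of cost `< t` leaving a closed set, total -/
lemma cut_le {t : ℝ} {C : Sym2 (Fin n) → ℝ} {k : ℕ} {S : Finset (Fin n)}
    (hS : ∀ u ∈ S, ∀ w ∉ S, ¬ (mutualGraph k C).Adj u w) :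
    ∑ u ∈ S, #(nbr (below t C) u \ S) ≤ ∑ v, (#(nbr (below t C) v) - k) := by
  classical
  have h1 : ∀ u ∈ S, #(nbr (below t C) u \ S) ≤ #{l ∈ nbr (below t C) u | k ≤ rank C u l} +
      #{w ∈ nbr (below t C) u \ S | k ≤ rank C w u} := by
    intro u hu
    rw [← card_filter_add_card_filter_not (s := nbr (below t C) u \ S)
      (fun w => k ≤ rank C w u), add_comm]
    apply Nat.add_le_add_right
    apply card_le_card
    intro w hw
    simp only [mem_filter, mem_sdiff, not_le] at hw ⊢
    refine ⟨hw.1.1, ?_⟩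
    by_contra h5
    exact hS u hu w hw.1.2 ⟨fun h => hw.1.2 (h ▸ hu), not_le.mp h5, hw.2⟩
  have h2 : ∑ u ∈ S, #{w ∈ nbr (below t C) u \ S | k ≤ rank C w u} ≤
      ∑ w ∈ Sᶜ, #{l ∈ nbr (below t C) w | k ≤ rank C w l} := by
    have h3 : ∀ u ∈ S, #{w ∈ nbr (below t C) u \ S | k ≤ rank C w u} =
        ∑ w ∈ Sᶜ, (if u ∈ nbr (below t C) w ∧ k ≤ rank C w u then 1 else 0) := by
      intro u _
      rw [card_eq_sum_ones, sum_filter, ← sum_filter (s := Sᶜ)]
      rw [← sum_filter]
      apply sum_congr _ fun _ _ => rfl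
      ext w
      simp only [mem_filter, mem_sdiff, mem_compl]
      rw [mem_nbr_comm]
      tauto
    rw [sum_congr rfl h3, sum_comm]
    apply sum_le_sum
    intro w _
    rw [← sum_filter, ← card_eq_sum_ones]
    apply card_le_card
    intro u hu
    simp only [mem_filter] at hu ⊢
    exact hu.2
  calc ∑ u ∈ S, #(nbr (below t C) u \ S)
      ≤ ∑ u ∈ S, (#{l ∈ nbr (below t C) u | k ≤ rank C u l} +
      #{w ∈ nbr (below t C) u \ S | k ≤ rank C w u}) := sum_le_sum h1
    _ = ∑ u ∈ S, #{l ∈ nbr (below t C) u | k ≤ rank C u l} +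
        ∑ u ∈ S, #{w ∈ nbr (below t C) u \ S | k ≤ rank C w u} := sum_add_distrib
    _ ≤ ∑ u ∈ S, #{l ∈ nbr (below t C) u | k ≤ rank C u l} +
        ∑ w ∈ Sᶜ, #{l ∈ nbr (below t C) w | k ≤ rank C w l} := Nat.add_le_add_left h2 _
    _ = ∑ v, #{l ∈ nbr (below t C) v | k ≤ rank C v l} := sum_add_sum_compl _ _
    _ ≤ _ := sum_le_sum fun v _ => not_preferred_card t C k v

/-- The deterministic part of the connectivity proof. -/
structure Good (A : Finset (Sym2 (Fin n))) (k m₀ : ℕ) : Prop where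
  deg : ∀ v, 5 + #(heavyNbr A k v) + (#(nbr A v) - k) ≤ #(nbr A v)
  small : ∀ S : Finset (Fin n), S.Nonempty → #S ≤ m₀ → ∑ u ∈ S, #(nbr A u ∩ S) ≤ 4 * #S
  large : ∀ S : Finset (Fin n), m₀ < #S → 2 * #S ≤ n → m₀ < ∑ u ∈ S, #(nbr A u \ S)
  excess : ∑ v, (#(nbr A v) - k) ≤ m₀

lemma no_closed_set {t : ℝ} {C : Sym2 (Fin n) → ℝ} {k m₀ : ℕ} (h : Good (below t C) k m₀)
    {S : Finset (Fin n)} (hSne : S.Nonempty) (hSn : 2 * #S ≤ n)
    (hS : ∀ u ∈ S, ∀ w ∉ S, ¬ (mutualGraph k C).Adj u w) : False := by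
  classical
  rcases Nat.lt_or_ge m₀ (#S) with hm | hm
  · have h1 := h.large S hm hSn
    have h2 := cut_le (t := t) hS
    have h3 := h.excess
    omega
  · have h1 := h.small S hSne hm
    have h2 : ∑ u ∈ S, #(nbr (below t C) u) =
        ∑ u ∈ S, #(nbr (below t C) u ∩ S) + ∑ u ∈ S, #(nbr (below t C) u \ S) := by
      rw [← sum_add_distrib]
      apply sum_congr rfl
      intro u _
      exact (card_inter_add_card_sdiff _ _).symm
    have h3 : ∑ u ∈ S, (#(nbr (below t C) u \ S) + 5) ≤ ∑ u ∈ S, #(nbr (below t C) u) := by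
      apply sum_le_sum
      intro u hu
      have h4 := out_le (t := t) hS hu
      have h5 := h.deg u
      omega
    rw [sum_add_distrib, sum_const, smul_eq_mul] at h3
    have h6 : 0 < #S := card_pos.mpr hSne
    omega

lemma connected_of_good {t : ℝ} {C : Sym2 (Fin n) → ℝ} {k m₀ : ℕ} (hn : 0 < n)
    (h : Good (below t C) k m₀) : (mutualGraph k C).Connected := by
  classical
  rw [SimpleGraph.connected_iff]
  refine ⟨?_, ⟨⟨0, hn⟩⟩⟩
  by_contra hcon
  unfold SimpleGraph.Preconnected at hcon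
  push Not at hcon
  obtain ⟨u, v, huv⟩ := hcon
  set S : Finset (Fin n) := univ.filter (fun w => (mutualGraph k C).Reachable u w) with hS
  have huS : u ∈ S := by simp [hS]
  have hvS : v ∉ S := by simpa [hS] using huv
  have hclosed : ∀ a ∈ S, ∀ b ∉ S, ¬ (mutualGraph k C).Adj a b := by
    intro a ha b hb hab
    apply hb
    simp only [hS, mem_filter, mem_univ, true_and] at ha ⊢
    exact ha.trans hab.reachable
  have hclosed' : ∀ a ∈ Sᶜ, ∀ b ∉ Sᶜ, ¬ (mutualGraph k C).Adj a b := by
    intro a ha b hb hab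
    rw [mem_compl] at ha
    rw [mem_compl, not_not] at hb
    exact hclosed b hb a ha hab.symm
  have hcard : #S + #Sᶜ = n := by
    rw [card_add_card_compl, Fintype.card_fin]
  rcases Nat.lt_or_ge n (2 * #S) with h1 | h1
  · exact no_closed_set h (S := Sᶜ) ⟨v, mem_compl.mpr hvS⟩ (by omega) hclosed'
  · exact no_closed_set h (S := S) ⟨u, huS⟩ h1 hclosed

/-- monotonicity in `k` -/
lemma mutualGraph_mono {k k' : ℕ} (h : k ≤ k') (C : Sym2 (Fin n) → ℝ) :
    mutualGraph k C ≤ mutualGraph k' C := by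
  intro i j hij
  exact ⟨hij.1, hij.2.1.trans_le h, hij.2.2.trans_le h⟩

lemma connected_mono {k k' : ℕ} (h : k ≤ k') (C : Sym2 (Fin n) → ℝ)
    (hc : (mutualGraph k C).Connected) : (mutualGraph k' C).Connected :=
  hc.mono (mutualGraph_mono h C)

end Pool.Agent.Lib.MP_ba8b4a_pr
end

section

open Finset

namespace Pool.Agent.Lib.MP_ba8b4a_pr

section General

variable {E : Type*} [Fintype E]

/-- Bernoulli weights on subsets -/
noncomputable def wgt (q : ℝ) (A : Finset E) : ℝ := q ^ #A * (1 - q) ^ (Fintype.card E - #A)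

lemma wgt_nonneg {q : ℝ} (h0 : 0 ≤ q) (h1 : q ≤ 1) (A : Finset E) : 0 ≤ wgt q A :=
  mul_nonneg (pow_nonneg h0 _) (pow_nonneg (by linarith) _)

lemma sum_wgt (q : ℝ) : ∑ A : Finset E, wgt q A = 1 := by
  unfold wgt
  rw [← card_univ, ← powerset_univ, Finset.sum_pow_mul_eq_add_pow]
  simp

variable [DecidableEq E]

lemma sum_wgt_prod (q : ℝ) (f g : E → ℝ) :
    ∑ A : Finset E, wgt q A * ((∏ e ∈ A, f e) * ∏ e ∈ Aᶜ, g e) =
      ∏ e, (q * f e + (1 - q) * g e) := by
  rw [Finset.prod_add, powerset_univ]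
  apply sum_congr rfl
  intro A _
  unfold wgt
  rw [prod_mul_distrib, prod_mul_distrib, prod_const, prod_const, ← compl_eq_univ_sdiff,
    card_compl]
  ring

/-- exponential moment of the number of chosen elements of `F`, on the event that all elements
of `F₀` are chosen -/
lemma exp_moment (q θ : ℝ) (F₀ F : Finset E) (hd : Disjoint F₀ F) :
    ∑ A : Finset E, wgt q A * ((if F₀ ⊆ A then 1 else 0) * Real.exp (θ * #(A ∩ F))) =
      q ^ #F₀ * (1 - q + q * Real.exp θ) ^ #F := by
  have h := sum_wgt_prod q (fun e : E => if e ∈ F then Real.exp θ else 1)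
    (fun e => if e ∈ F₀ then 0 else 1)
  have h1 : ∀ A : Finset E, (∏ e ∈ A, if e ∈ F then Real.exp θ else 1) =
      Real.exp (θ * #(A ∩ F)) := by
    intro A
    rw [prod_ite_mem, prod_const, ← Real.exp_nat_mul]
    ring_nf
  have h2 : ∀ A : Finset E, (∏ e ∈ Aᶜ, if e ∈ F₀ then (0 : ℝ) else 1) =
      if F₀ ⊆ A then 1 else 0 := by
    intro A
    by_cases hA : F₀ ⊆ A
    · rw [if_pos hA]
      apply prod_eq_one
      intro e he
      rw [if_neg]
      intro heF
      exact (mem_compl.mp he) (hA heF)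
    · rw [if_neg hA]
      obtain ⟨e, he, heA⟩ := not_subset.mp hA
      apply prod_eq_zero (mem_compl.mpr heA)
      rw [if_pos he]
  simp_rw [h1, h2] at h
  have h3 : ∏ e, (q * (if e ∈ F then Real.exp θ else 1) + (1 - q) * (if e ∈ F₀ then 0 else 1)) =
      q ^ #F₀ * (1 - q + q * Real.exp θ) ^ #F := by
    have h4 : ∀ e : E, (q * (if e ∈ F then Real.exp θ else 1) +
        (1 - q) * (if e ∈ F₀ then 0 else 1)) =
        (if e ∈ F₀ then q else 1) * (if e ∈ F then (1 - q + q * Real.exp θ) else 1) := by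
      intro e
      by_cases h5 : e ∈ F₀
      · have h6 : e ∉ F := disjoint_left.mp hd h5
        simp [h5, h6]
      · by_cases h6 : e ∈ F
        · simp [h5, h6]; ring
        · simp [h5, h6]
    simp_rw [h4]
    rw [prod_mul_distrib, prod_ite_mem, prod_ite_mem, univ_inter, univ_inter, prod_const,
      prod_const]
  rw [← h3, ← h]
  apply sum_congr rfl
  intro A _
  ring

open Classical in
/-- probability of an event under the Bernoulli weights -/
noncomputable def pw (q : ℝ) (P : Finset E → Prop) : ℝ := ∑ A, wgt q A * (if P A then 1 else 0)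

lemma pw_nonneg {q : ℝ} (h0 : 0 ≤ q) (h1 : q ≤ 1) (P : Finset E → Prop) : 0 ≤ pw q P := by
  unfold pw
  apply sum_nonneg; intro A _
  apply mul_nonneg (wgt_nonneg h0 h1 A)
  split_ifs <;> norm_num

lemma pw_mono {q : ℝ} (h0 : 0 ≤ q) (h1 : q ≤ 1) {P Q : Finset E → Prop} (h : ∀ A, P A → Q A) :
    pw q P ≤ pw q Q := by
  unfold pw
  apply sum_le_sum; intro A _
  apply mul_le_mul_of_nonneg_left _ (wgt_nonneg h0 h1 A)
  by_cases hP : P A
  · rw [if_pos hP, if_pos (h A hP)]
  · rw [if_neg hP]; split_ifs <;> norm_num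

lemma pw_or_le {q : ℝ} (h0 : 0 ≤ q) (h1 : q ≤ 1) (P Q : Finset E → Prop) :
    pw q (fun A => P A ∨ Q A) ≤ pw q P + pw q Q := by
  unfold pw
  rw [← sum_add_distrib]
  apply sum_le_sum; intro A _
  rw [← mul_add]
  apply mul_le_mul_of_nonneg_left _ (wgt_nonneg h0 h1 A)
  by_cases hP : P A <;> by_cases hQ : Q A <;> simp [hP, hQ]

lemma pw_exists_le {q : ℝ} (h0 : 0 ≤ q) (h1 : q ≤ 1) {ι : Type*} (s : Finset ι)
    (P : ι → Finset E → Prop) :
    pw q (fun A => ∃ i ∈ s, P i A) ≤ ∑ i ∈ s, pw q (P i) := by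
  classical
  unfold pw
  rw [sum_comm]
  apply sum_le_sum; intro A _
  rw [← mul_sum]
  apply mul_le_mul_of_nonneg_left _ (wgt_nonneg h0 h1 A)
  by_cases h : ∃ i ∈ s, P i A
  · obtain ⟨i, hi, hP⟩ := h
    rw [if_pos ⟨i, hi, hP⟩]
    calc (1 : ℝ) = if P i A then 1 else 0 := by rw [if_pos hP]
      _ ≤ _ := single_le_sum (f := fun i => if P i A then (1 : ℝ) else 0)
        (fun j _ => by split_ifs <;> norm_num) hi
  · rw [if_neg h]
    apply sum_nonneg; intro i _
    split_ifs <;> norm_num

/-- Markov inequality for the weights -/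
lemma pw_le_of_le {q : ℝ} (h0 : 0 ≤ q) (h1 : q ≤ 1) {P : Finset E → Prop} (f : Finset E → ℝ)
    (hf0 : ∀ A, 0 ≤ f A) (hf : ∀ A, P A → 1 ≤ f A) : pw q P ≤ ∑ A, wgt q A * f A := by
  unfold pw
  apply sum_le_sum; intro A _
  apply mul_le_mul_of_nonneg_left _ (wgt_nonneg h0 h1 A)
  by_cases h : P A
  · rw [if_pos h]; exact hf A h
  · rw [if_neg h]; exact hf0 A

lemma one_sub_add_pow_le {q θ : ℝ} (h0 : 0 ≤ q) (h1 : q ≤ 1) (m : ℕ) :
    (1 - q + q * Real.exp θ) ^ m ≤ Real.exp (q * m * (Real.exp θ - 1)) := by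
  have h2 : 1 - q + q * Real.exp θ ≤ Real.exp (q * (Real.exp θ - 1)) := by
    have := Real.add_one_le_exp (q * (Real.exp θ - 1))
    linarith
  have h3 : 0 ≤ 1 - q + q * Real.exp θ := by
    have := Real.exp_pos θ
    have : 0 ≤ q * Real.exp θ := by positivity
    linarith
  calc (1 - q + q * Real.exp θ) ^ m ≤ Real.exp (q * (Real.exp θ - 1)) ^ m :=
        pow_le_pow_left₀ h3 h2 m
    _ = _ := by rw [← Real.exp_nat_mul]; ring_nf

/-- upper tail -/
lemma upper_tail {q θ : ℝ} (h0 : 0 ≤ q) (h1 : q ≤ 1) (hθ : 0 ≤ θ) (F₀ F : Finset E)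
    (hd : Disjoint F₀ F) (D : ℝ) :
    pw q (fun A => F₀ ⊆ A ∧ D ≤ #(A ∩ F)) ≤
      q ^ #F₀ * Real.exp (-(θ * D) + q * #F * (Real.exp θ - 1)) := by
  calc pw q (fun A => F₀ ⊆ A ∧ D ≤ #(A ∩ F))
      ≤ ∑ A, wgt q A * (Real.exp (-(θ * D)) *
        ((if F₀ ⊆ A then 1 else 0) * Real.exp (θ * #(A ∩ F)))) := by
        apply pw_le_of_le h0 h1
        · intro A
          apply mul_nonneg (Real.exp_pos _).le
          apply mul_nonneg _ (Real.exp_pos _).le
          split_ifs <;> norm_num
        · rintro A ⟨hA, hD⟩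
          rw [if_pos hA, one_mul, ← Real.exp_add]
          apply Real.one_le_exp
          nlinarith
    _ = Real.exp (-(θ * D)) * (q ^ #F₀ * (1 - q + q * Real.exp θ) ^ #F) := by
        rw [← exp_moment q θ F₀ F hd, mul_sum]
        exact sum_congr rfl fun A _ => by ring
    _ ≤ Real.exp (-(θ * D)) * (q ^ #F₀ * Real.exp (q * #F * (Real.exp θ - 1))) := by
        gcongr
        exact one_sub_add_pow_le h0 h1 _
    _ = _ := by rw [Real.exp_add]; ring

/-- lower tail -/
lemma lower_tail {q θ : ℝ} (h0 : 0 ≤ q) (h1 : q ≤ 1) (hθ : 0 ≤ θ) (F : Finset E) (D : ℝ) :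
    pw q (fun A => (#(A ∩ F) : ℝ) ≤ D) ≤
      Real.exp (θ * D - q * #F * (1 - Real.exp (-θ))) := by
  calc pw q (fun A => (#(A ∩ F) : ℝ) ≤ D)
      ≤ ∑ A, wgt q A * (Real.exp (θ * D) *
        ((if (∅ : Finset E) ⊆ A then 1 else 0) * Real.exp (-θ * #(A ∩ F)))) := by
        apply pw_le_of_le h0 h1
        · intro A
          apply mul_nonneg (Real.exp_pos _).le
          apply mul_nonneg _ (Real.exp_pos _).le
          split_ifs <;> norm_num
        · intro A hD
          rw [if_pos (empty_subset A), one_mul, ← Real.exp_add]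
          apply Real.one_le_exp
          nlinarith
    _ = Real.exp (θ * D) * (q ^ #(∅ : Finset E) * (1 - q + q * Real.exp (-θ)) ^ #F) := by
        rw [← exp_moment q (-θ) ∅ F (disjoint_empty_left _), mul_sum]
        exact sum_congr rfl fun A _ => by ring
    _ ≤ Real.exp (θ * D) * (1 * Real.exp (q * #F * (Real.exp (-θ) - 1))) := by
        rw [card_empty, pow_zero]
        gcongr
        exact one_sub_add_pow_le h0 h1 _
    _ = _ := by rw [one_mul, ← Real.exp_add]; ring_nf

end General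

section Events

variable {n : ℕ}

/-- edges at `v` -/
def star (v : Fin n) : Finset (Sym2 (Fin n)) := (univ.erase v).image (fun l => s(v, l))

lemma mk_injective (v : Fin n) : Function.Injective (fun l : Fin n => s(v, l)) := by
  intro a b h
  simp only [Sym2.eq_iff] at h
  rcases h with ⟨_, h⟩ | ⟨h1, h2⟩
  · exact h
  · rw [← h1, ← h2]

lemma card_star (v : Fin n) : #(star v) = n - 1 := by
  unfold star
  rw [card_image_of_injective _ (mk_injective v), card_erase_of_mem (mem_univ v), card_univ,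
    Fintype.card_fin]

lemma card_nbr (A : Finset (Sym2 (Fin n))) (v : Fin n) : #(nbr A v) = #(A ∩ star v) := by
  rw [← card_image_of_injective _ (mk_injective v)]
  congr 1
  ext e
  simp only [mem_image, mem_nbr, mem_inter, star, mem_erase, mem_univ, and_true]
  constructor
  · rintro ⟨l, ⟨h1, h2⟩, rfl⟩; exact ⟨h2, l, h1, rfl⟩
  · rintro ⟨h2, l, h1, rfl⟩; exact ⟨l, ⟨h1, h2⟩, rfl⟩

/-- low degree -/
lemma prob_low_degree {q θ : ℝ} (h0 : 0 ≤ q) (h1 : q ≤ 1) (hθ : 0 ≤ θ) (D : ℕ) :
    pw q (fun A : Finset (Sym2 (Fin n)) => ∃ v ∈ (univ : Finset (Fin n)), #(nbr A v) ≤ D) ≤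
      n * Real.exp (θ * D - q * (n - 1 : ℕ) * (1 - Real.exp (-θ))) := by
  refine (pw_exists_le h0 h1 _ _).trans ?_
  calc _ ≤ ∑ v : Fin n, Real.exp (θ * D - q * (n - 1 : ℕ) * (1 - Real.exp (-θ))) := by
        apply sum_le_sum
        intro v _
        have h := lower_tail h0 h1 hθ (star v) D
        rw [card_star] at h
        refine le_trans (pw_mono h0 h1 ?_) h
        intro A hA
        rw [← card_nbr]
        exact_mod_cast hA
    _ = _ := by simp

/-- many heavy neighbours -/
lemma prob_heavy {q θ : ℝ} (h0 : 0 ≤ q) (h1 : q ≤ 1) (hθ : 0 ≤ θ) (k s : ℕ) :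
    pw q (fun A : Finset (Sym2 (Fin n)) => ∃ v ∈ (univ : Finset (Fin n)),
      s ≤ #(heavyNbr A k v)) ≤
      n * (n ^ s * (q ^ s * Real.exp (-(θ * (s * ((k : ℝ) + 1 - s))) +
        q * (s * n) * (Real.exp θ - 1)))) := by
  refine (pw_exists_le h0 h1 _ _).trans ?_
  have key : ∀ v : Fin n, pw q (fun A : Finset (Sym2 (Fin n)) => s ≤ #(heavyNbr A k v)) ≤
      n ^ s * (q ^ s * Real.exp (-(θ * (s * ((k : ℝ) + 1 - s))) +
        q * (s * n) * (Real.exp θ - 1))) := by
    intro v
    have hsub : ∀ A : Finset (Sym2 (Fin n)), s ≤ #(heavyNbr A k v) →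
        ∃ U ∈ (powersetCard s (univ : Finset (Fin n))), U ⊆ heavyNbr A k v := by
      intro A hA
      obtain ⟨U, hU1, hU2⟩ := exists_subset_card_eq hA
      exact ⟨U, mem_powersetCard.mpr ⟨subset_univ _, hU2⟩, hU1⟩
    refine (pw_mono h0 h1 hsub).trans ((pw_exists_le h0 h1 _ _).trans ?_)
    have hB : 0 ≤ (q ^ s * Real.exp (-(θ * (s * ((k : ℝ) + 1 - s))) +
        q * (s * n) * (Real.exp θ - 1))) := by positivity
    calc _ ≤ ∑ U ∈ powersetCard s (univ : Finset (Fin n)),
          (q ^ s * Real.exp (-(θ * (s * ((k : ℝ) + 1 - s))) +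
            q * (s * n) * (Real.exp θ - 1))) := by
          apply sum_le_sum
          intro U hU
          have hUs := (mem_powersetCard.mp hU).2
          -- v ∉ U, otherwise the event is impossible
          by_cases hvU : v ∈ U
          · have : pw q (fun A : Finset (Sym2 (Fin n)) => U ⊆ heavyNbr A k v) = 0 := by
              unfold pw
              apply sum_eq_zero
              intro A _
              rw [if_neg, mul_zero]
              intro h
              have h2 := h hvU
              simp only [heavyNbr, mem_filter, mem_nbr] at h2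
              exact h2.1.1 rfl
            rw [this]; exact hB
          · set F₀ : Finset (Sym2 (Fin n)) := U.image (fun l => s(v, l)) with hF₀
            set F₁ : Finset (Sym2 (Fin n)) :=
              (U ×ˢ (insert v U)ᶜ).image (fun p => s(p.1, p.2)) with hF₁
            have hinj : Set.InjOn (fun p : Fin n × Fin n => s(p.1, p.2))
                (U ×ˢ (insert v U)ᶜ : Finset (Fin n × Fin n)) := by
              rintro ⟨a, b⟩ hab ⟨c, e⟩ hce h
              simp only [coe_product, Set.mem_prod, mem_coe, mem_compl, mem_insert, not_or] at hab hce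
              simp only [Sym2.eq_iff] at h
              rcases h with ⟨h1, h2⟩ | ⟨h1, h2⟩
              · rw [h1, h2]
              · exact absurd (h1 ▸ hab.1) hce.2.2
            have hcF₀ : #F₀ = s := by
              rw [hF₀, card_image_of_injective _ (mk_injective v), hUs]
            have hcF₁ : #F₁ ≤ s * n := by
              rw [hF₁, card_image_of_injOn hinj, card_product, hUs]
              apply Nat.mul_le_mul_left
              calc #(insert v U)ᶜ ≤ #(univ : Finset (Fin n)) := card_le_card (subset_univ _)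
                _ = n := by simp
            have hdisj : Disjoint F₀ F₁ := by
              rw [disjoint_left]
              intro e he he'
              simp only [hF₀, mem_image] at he
              simp only [hF₁, mem_image, mem_product, mem_compl, mem_insert, not_or] at he'
              obtain ⟨l, hl, rfl⟩ := he
              obtain ⟨⟨a, b⟩, ⟨ha, hb1, hb2⟩, hab⟩ := he'
              simp only [Sym2.eq_iff] at hab
              rcases hab with ⟨h3, h4⟩ | ⟨h3, h4⟩
              · exact hvU (h3 ▸ ha)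
              · exact hb1 h4
            have himp : ∀ A : Finset (Sym2 (Fin n)), U ⊆ heavyNbr A k v →
                F₀ ⊆ A ∧ (s : ℝ) * ((k : ℝ) + 1 - s) ≤ #(A ∩ F₁) := by
              intro A hA
              constructor
              · intro e he
                simp only [hF₀, mem_image] at he
                obtain ⟨l, hl, rfl⟩ := he
                have := hA hl
                simp only [heavyNbr, mem_filter, mem_nbr] at this
                exact this.1.2
              · -- outside degrees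
                have h5 : #(A ∩ F₁) = ∑ u ∈ U, #(nbr A u \ insert v U) := by
                  have h6 : A ∩ F₁ = (U.sigma (fun u => nbr A u \ insert v U)).image
                      (fun p => s(p.1, p.2)) := by
                    ext e
                    simp only [hF₁, mem_inter, mem_image, mem_product, mem_compl, mem_sigma,
                      mem_sdiff, Prod.exists, Sigma.exists]
                    constructor
                    · rintro ⟨heA, a, b, ⟨ha, hb⟩, rfl⟩
                      refine ⟨a, b, ⟨ha, mem_nbr.mpr ⟨?_, heA⟩, hb⟩, rfl⟩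
                      rintro rfl
                      exact hb (mem_insert_of_mem ha)
                    · rintro ⟨a, b, ⟨ha, hb1, hb2⟩, rfl⟩
                      exact ⟨(mem_nbr.mp hb1).2, a, b, ⟨ha, hb2⟩, rfl⟩
                  rw [h6, card_image_of_injOn, card_sigma]
                  rintro ⟨a, b⟩ hab ⟨c, e⟩ hce h
                  simp only [coe_sigma, Set.mem_sigma_iff, mem_coe, mem_sdiff, mem_insert,
                    not_or] at hab hce
                  simp only [Sym2.eq_iff] at h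
                  rcases h with ⟨h1, h2⟩ | ⟨h1, h2⟩
                  · subst h1; subst h2; rfl
                  · exact absurd (h1 ▸ hab.1) hce.2.2.2
                rw [h5]
                push_cast
                rw [← nsmul_eq_mul, ← hUs, ← sum_const]
                apply sum_le_sum
                intro u hu
                have h7 := hA hu
                simp only [heavyNbr, mem_filter] at h7
                have h8 := card_inter_add_card_sdiff (nbr A u) (insert v U)
                have h9 : #(nbr A u ∩ insert v U) ≤ s := by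
                  calc #(nbr A u ∩ insert v U) ≤ #((insert v U).erase u) := by
                        apply card_le_card
                        intro l hl
                        rw [mem_inter, mem_nbr] at hl
                        exact mem_erase.mpr ⟨hl.1.1, hl.2⟩
                    _ = s := by
                        rw [card_erase_of_mem (mem_insert_of_mem hu), card_insert_of_notMem hvU,
                          hUs]
                        simp
                have h10 : k + 1 ≤ s + #(nbr A u \ insert v U) := by omega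
                have h11 : (k : ℝ) + 1 ≤ s + #(nbr A u \ insert v U) := by exact_mod_cast h10
                rw [hUs]
                linarith
            refine (pw_mono h0 h1 himp).trans ((upper_tail h0 h1 hθ F₀ F₁ hdisj _).trans ?_)
            rw [hcF₀]
            gcongr
            · have := Real.one_le_exp hθ
              linarith
            · exact_mod_cast hcF₁
      _ = (n.choose s : ℝ) * (q ^ s * Real.exp (-(θ * (s * ((k : ℝ) + 1 - s))) +
            q * (s * n) * (Real.exp θ - 1))) := by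
          rw [sum_const, card_powersetCard, card_univ, Fintype.card_fin, nsmul_eq_mul]
      _ ≤ _ := by
          apply mul_le_mul_of_nonneg_right _ hB
          exact_mod_cast Nat.choose_le_pow n s
  calc _ ≤ ∑ v : Fin n, ((n : ℝ) ^ s * (q ^ s * Real.exp (-(θ * (s * ((k : ℝ) + 1 - s))) +
        q * (s * n) * (Real.exp θ - 1)))) := sum_le_sum fun v _ => key v
    _ = _ := by simp

/-- dense small set of size `m` -/
lemma prob_dense {q : ℝ} (h0 : 0 < q) (h1 : q ≤ 1) {m : ℕ} (hm : 0 < m) (hmq : m * q ≤ 4)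
    (S : Finset (Fin n)) (hS : #S = m) :
    pw q (fun A : Finset (Sym2 (Fin n)) => 4 * #S < ∑ u ∈ S, #(nbr A u ∩ S)) ≤
      (Real.exp 1 * (m * q / 4)) ^ (2 * m) := by
  have hm' : (0 : ℝ) < m := by exact_mod_cast hm
  set F : Finset (Sym2 (Fin n)) := S.offDiag.image (fun p : Fin n × Fin n => s(p.1, p.2)) with hF
  have hcF : (#F : ℝ) ≤ m ^ 2 / 2 := by
    have h2 : #F = m.choose 2 := by
      rw [← hS]
      exact Sym2.card_image_offDiag S
    rw [h2, Nat.choose_two_right]
    have h3 : ((m * (m - 1) / 2 : ℕ) : ℝ) ≤ ((m * (m - 1) : ℕ) : ℝ) / 2 := Nat.cast_div_le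
    refine h3.trans ?_
    have h4 : ((m * (m - 1) : ℕ) : ℝ) ≤ (m : ℝ) ^ 2 := by
      have : m * (m - 1) ≤ m ^ 2 := by
        rw [sq]; exact Nat.mul_le_mul_left _ (Nat.sub_le _ _)
      exact_mod_cast this
    linarith
  set θ := Real.log (4 / (m * q)) with hθdef
  have hexp : Real.exp θ = 4 / (m * q) := Real.exp_log (by positivity)
  have hge : 1 ≤ 4 / (m * q) := by rw [le_div_iff₀ (by positivity)]; linarith
  have hθ : 0 ≤ θ := Real.log_nonneg hge
  have himp : ∀ A : Finset (Sym2 (Fin n)), 4 * #S < ∑ u ∈ S, #(nbr A u ∩ S) →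
      (∅ : Finset (Sym2 (Fin n))) ⊆ A ∧ (2 * m : ℝ) ≤ #(A ∩ F) := by
    intro A hA
    refine ⟨empty_subset _, ?_⟩
    have h5 : ∑ u ∈ S, #(nbr A u ∩ S) = #(S.sigma (fun u => nbr A u ∩ S)) :=
      (card_sigma _ _).symm
    have h6 : #(S.sigma (fun u => nbr A u ∩ S)) ≤ 2 * #((S.sigma (fun u => nbr A u ∩ S)).image
        (fun p => s(p.1, p.2))) := by
      apply card_le_mul_card_image
      intro e he
      obtain ⟨⟨a, b⟩, hab, rfl⟩ := mem_image.mp he
      calc _ ≤ #({⟨a, b⟩, ⟨b, a⟩} : Finset (Σ _ : Fin n, Fin n)) := by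
            apply card_le_card
            rintro ⟨x, y⟩ hxy
            simp only [mem_filter, Sym2.eq_iff] at hxy
            simp only [mem_insert, mem_singleton]
            rcases hxy.2 with ⟨h7, h8⟩ | ⟨h7, h8⟩
            · left; subst h7; subst h8; rfl
            · right; subst h7; subst h8; rfl
        _ ≤ 2 := card_le_two
    have h9 : (S.sigma (fun u => nbr A u ∩ S)).image (fun p => s(p.1, p.2)) ⊆ A ∩ F := by
      intro e he
      obtain ⟨⟨a, b⟩, hab, rfl⟩ := mem_image.mp he
      simp only [mem_sigma, mem_inter] at hab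
      have h10 := mem_nbr.mp hab.2.1
      rw [mem_inter]
      refine ⟨h10.2, ?_⟩
      rw [hF, mem_image]
      exact ⟨(a, b), mem_offDiag.mpr ⟨hab.1, hab.2.2, fun h => h10.1 h.symm⟩, rfl⟩
    have h11 := card_le_card h9
    have h12 : 2 * m ≤ #(A ∩ F) := by omega
    exact_mod_cast h12
  refine (pw_mono h0.le h1 himp).trans
    ((upper_tail h0.le h1 hθ ∅ F (disjoint_empty_left _) _).trans ?_)
  rw [card_empty, pow_zero, one_mul]
  calc Real.exp (-(θ * (2 * m)) + q * #F * (Real.exp θ - 1))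
      ≤ Real.exp (-(θ * (2 * m)) + 2 * m) := by
        apply Real.exp_le_exp.mpr
        have h13 : q * #F * (Real.exp θ - 1) ≤ q * (m ^ 2 / 2) * (Real.exp θ) := by
          have h14 : 0 ≤ Real.exp θ - 1 := by rw [hexp]; linarith
          calc q * #F * (Real.exp θ - 1) ≤ q * (m ^ 2 / 2) * (Real.exp θ - 1) := by gcongr
            _ ≤ q * (m ^ 2 / 2) * (Real.exp θ) := by
              apply mul_le_mul_of_nonneg_left (by linarith) (by positivity)
        have h15 : q * (m ^ 2 / 2) * (Real.exp θ) = 2 * m := by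
          rw [hexp]; field_simp; norm_num
        linarith
    _ = (Real.exp 1 * (m * q / 4)) ^ (2 * m) := by
        rw [Real.exp_add, mul_pow, ← Real.exp_nat_mul]
        rw [mul_comm]
        congr 1
        · push_cast; ring_nf
        · have h16 : -(θ * (2 * m)) = ((2 * m : ℕ) : ℝ) * (-θ) := by push_cast; ring
          rw [h16, Real.exp_nat_mul, Real.exp_neg, hexp]
          congr 1
          rw [inv_div]

/-- small cut -/
lemma prob_cut {q θ : ℝ} (h0 : 0 ≤ q) (h1 : q ≤ 1) (hθ : 0 ≤ θ) {m m₀ : ℕ}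
    (S : Finset (Fin n)) (hS : #S = m) :
    pw q (fun A : Finset (Sym2 (Fin n)) => ∑ u ∈ S, #(nbr A u \ S) ≤ m₀) ≤
      Real.exp (θ * m₀ - q * (m * (n - m : ℕ)) * (1 - Real.exp (-θ))) := by
  set F : Finset (Sym2 (Fin n)) := (S ×ˢ Sᶜ).image (fun p => s(p.1, p.2)) with hF
  have hinj : Set.InjOn (fun p : Fin n × Fin n => s(p.1, p.2))
      (S ×ˢ Sᶜ : Finset (Fin n × Fin n)) := by
    rintro ⟨a, b⟩ hab ⟨c, e⟩ hce h
    simp only [coe_product, Set.mem_prod, mem_coe, mem_compl] at hab hce
    simp only [Sym2.eq_iff] at h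
    rcases h with ⟨h1, h2⟩ | ⟨h1, h2⟩
    · rw [h1, h2]
    · exact absurd (h1 ▸ hab.1) hce.2
  have hcF : #F = m * (n - m) := by
    rw [hF, card_image_of_injOn hinj, card_product, card_compl, hS, Fintype.card_fin]
  have h := lower_tail h0 h1 hθ F (m₀ : ℝ)
  rw [hcF] at h
  push_cast at h ⊢
  refine le_trans (pw_mono h0 h1 ?_) h
  intro A hA
  have h5 : #(A ∩ F) = ∑ u ∈ S, #(nbr A u \ S) := by
    have h6 : A ∩ F = (S.sigma (fun u => nbr A u \ S)).image (fun p => s(p.1, p.2)) := by
      ext e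
      simp only [hF, mem_inter, mem_image, mem_product, mem_compl, mem_sigma,
        mem_sdiff, Prod.exists, Sigma.exists]
      constructor
      · rintro ⟨heA, a, b, ⟨ha, hb⟩, rfl⟩
        refine ⟨a, b, ⟨ha, mem_nbr.mpr ⟨?_, heA⟩, hb⟩, rfl⟩
        rintro rfl
        exact hb ha
      · rintro ⟨a, b, ⟨ha, hb1, hb2⟩, rfl⟩
        exact ⟨(mem_nbr.mp hb1).2, a, b, ⟨ha, hb2⟩, rfl⟩
    rw [h6, card_image_of_injOn, card_sigma]
    rintro ⟨a, b⟩ hab ⟨c, e⟩ hce h
    simp only [coe_sigma, Set.mem_sigma_iff, mem_coe, mem_sdiff] at hab hce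
    simp only [Sym2.eq_iff] at h
    rcases h with ⟨h1, h2⟩ | ⟨h1, h2⟩
    · subst h1; subst h2; rfl
    · exact absurd (h1 ▸ hab.1) hce.2.2
  rw [h5]
  exact_mod_cast hA

/-- total excess -/
lemma prob_excess {q θ : ℝ} (h0 : 0 ≤ q) (h1 : q ≤ 1) (hθ : 0 < θ) (k m₀ : ℕ) :
    pw q (fun A : Finset (Sym2 (Fin n)) => m₀ < ∑ v, (#(nbr A v) - k)) ≤
      n * Real.exp (-(θ * k) + q * (n - 1 : ℕ) * (Real.exp θ - 1)) / (θ * (m₀ + 1)) := by
  have hmark : pw q (fun A : Finset (Sym2 (Fin n)) => m₀ < ∑ v, (#(nbr A v) - k)) ≤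
      ∑ A : Finset (Sym2 (Fin n)), wgt q A *
        ((∑ v : Fin n, Real.exp (-(θ * k)) * ((if (∅ : Finset (Sym2 (Fin n))) ⊆ A then 1 else 0) *
          Real.exp (θ * #(A ∩ star v)))) / (θ * (m₀ + 1))) := by
    apply pw_le_of_le h0 h1
    · intro A
      apply div_nonneg _ (by positivity)
      apply sum_nonneg; intro v _
      rw [if_pos (empty_subset _)]
      positivity
    · intro A hA
      rw [le_div_iff₀ (by positivity), one_mul]
      have h2 : ((m₀ : ℝ) + 1) ≤ ∑ v : Fin n, ((#(nbr A v) - k : ℕ) : ℝ) := by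
        have : m₀ + 1 ≤ ∑ v, (#(nbr A v) - k) := hA
        exact_mod_cast this
      calc θ * (m₀ + 1) ≤ θ * ∑ v : Fin n, ((#(nbr A v) - k : ℕ) : ℝ) := by gcongr
        _ = ∑ v : Fin n, θ * ((#(nbr A v) - k : ℕ) : ℝ) := mul_sum _ _ _
        _ ≤ _ := by
          apply sum_le_sum
          intro v _
          rw [if_pos (empty_subset _), one_mul, ← Real.exp_add, card_nbr]
          rcases Nat.le_total (#(A ∩ star v)) k with h3 | h3
          · rw [Nat.sub_eq_zero_of_le h3]
            simp only [Nat.cast_zero, mul_zero]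
            positivity
          · rw [Nat.cast_sub h3]
            have := Real.add_one_le_exp (-(θ * k) + θ * #(A ∩ star v))
            nlinarith
  refine hmark.trans ?_
  have h4 : ∑ A : Finset (Sym2 (Fin n)), wgt q A *
        ((∑ v : Fin n, Real.exp (-(θ * k)) * ((if (∅ : Finset (Sym2 (Fin n))) ⊆ A then 1 else 0) *
          Real.exp (θ * #(A ∩ star v)))) / (θ * (m₀ + 1))) =
      (∑ v : Fin n, Real.exp (-(θ * k)) * (1 - q + q * Real.exp θ) ^ (n - 1)) /
        (θ * (m₀ + 1)) := by
    rw [sum_div]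
    have h5 : ∀ v : Fin n, Real.exp (-(θ * k)) * (1 - q + q * Real.exp θ) ^ (n - 1) /
        (θ * (m₀ + 1)) = ∑ A : Finset (Sym2 (Fin n)), wgt q A *
        (Real.exp (-(θ * k)) * ((if (∅ : Finset (Sym2 (Fin n))) ⊆ A then 1 else 0) *
          Real.exp (θ * #(A ∩ star v))) / (θ * (m₀ + 1))) := by
      intro v
      have h6 := exp_moment q θ ∅ (star v) (disjoint_empty_left _)
      rw [card_empty, pow_zero, one_mul, card_star] at h6
      rw [← h6, mul_sum, sum_div]
      exact sum_congr rfl fun A _ => by ring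
    rw [sum_congr rfl fun v _ => h5 v, sum_comm]
    apply sum_congr rfl; intro A _
    rw [sum_div, mul_sum]
  rw [h4]
  apply div_le_div_of_nonneg_right _ (by positivity)
  rw [sum_const, card_univ, Fintype.card_fin, nsmul_eq_mul]
  apply mul_le_mul_of_nonneg_left _ (by positivity)
  rw [Real.exp_add]
  apply mul_le_mul_of_nonneg_left (one_sub_add_pow_le h0 h1 _) (Real.exp_pos _).le

/-- union bound for the failure of `Good` -/
lemma prob_not_good {q θa θb θc : ℝ} (h0 : 0 < q) (h1 : q ≤ 1) (hθa : 0 ≤ θa) (hθb : 0 < θb)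
    (hθc : 0 ≤ θc) {k m₀ s : ℕ} (hk : s + 4 ≤ k) (hm₀ : m₀ * q ≤ 4) :
    pw q (fun A : Finset (Sym2 (Fin n)) => ¬ Good A k m₀) ≤
      n * Real.exp (θa * (s + 3 : ℕ) - q * (n - 1 : ℕ) * (1 - Real.exp (-θa))) +
      n * (n ^ s * (q ^ s * Real.exp (-(θb * (s * ((k : ℝ) + 1 - s))) +
        q * (s * n) * (Real.exp θb - 1)))) +
      ∑ m ∈ Icc 1 m₀, (n.choose m : ℝ) * (Real.exp 1 * (m * q / 4)) ^ (2 * m) +
      ∑ m ∈ Ioc m₀ (n / 2), (n.choose m : ℝ) *
        Real.exp (θc * m₀ - q * (m * (n - m : ℕ)) * (1 - Real.exp (-θc))) +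
      n * Real.exp (-(θb * k) + q * (n - 1 : ℕ) * (Real.exp θb - 1)) / (θb * (m₀ + 1)) := by
  have hsub : ∀ A : Finset (Sym2 (Fin n)), ¬ Good A k m₀ →
      ((((∃ v ∈ (univ : Finset (Fin n)), #(nbr A v) ≤ s + 3) ∨
      (∃ v ∈ (univ : Finset (Fin n)), s ≤ #(heavyNbr A k v))) ∨
      (∃ m ∈ Icc 1 m₀, ∃ S ∈ powersetCard m (univ : Finset (Fin n)),
        4 * #S < ∑ u ∈ S, #(nbr A u ∩ S))) ∨
      (∃ m ∈ Ioc m₀ (n / 2), ∃ S ∈ powersetCard m (univ : Finset (Fin n)),
        ∑ u ∈ S, #(nbr A u \ S) ≤ m₀)) ∨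
      m₀ < ∑ v, (#(nbr A v) - k) := by
    intro A hA
    by_contra hcon
    push Not at hcon
    obtain ⟨⟨⟨⟨c1, c2⟩, c3⟩, c4⟩, c5⟩ := hcon
    apply hA
    refine ⟨?_, ?_, ?_, c5⟩
    · intro v
      have d1 := c1 v (mem_univ v)
      have d2 := c2 v (mem_univ v)
      omega
    · intro S hS1 hS2
      exact c3 #S (mem_Icc.mpr ⟨card_pos.mpr hS1, hS2⟩) S
        (mem_powersetCard.mpr ⟨subset_univ _, rfl⟩)
    · intro S hS1 hS2
      exact c4 #S (mem_Ioc.mpr ⟨hS1, by omega⟩) S (mem_powersetCard.mpr ⟨subset_univ _, rfl⟩)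
  refine (pw_mono h0.le h1 hsub).trans ?_
  refine (pw_or_le h0.le h1 _ _).trans (add_le_add ?_ (prob_excess h0.le h1 hθb k m₀))
  refine (pw_or_le h0.le h1 _ _).trans (add_le_add ?_ ?_)
  · refine (pw_or_le h0.le h1 _ _).trans (add_le_add ?_ ?_)
    · refine (pw_or_le h0.le h1 _ _).trans (add_le_add ?_ ?_)
      · exact prob_low_degree h0.le h1 hθa (s + 3)
      · exact prob_heavy h0.le h1 hθb.le k s
    · refine (pw_exists_le h0.le h1 _ _).trans (sum_le_sum fun m hm => ?_)
      refine (pw_exists_le h0.le h1 _ _).trans ?_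
      rw [mem_Icc] at hm
      have hmq : (m : ℝ) * q ≤ 4 := by
        refine le_trans ?_ hm₀
        have : (m : ℝ) ≤ m₀ := by exact_mod_cast hm.2
        gcongr
      calc _ ≤ ∑ S ∈ powersetCard m (univ : Finset (Fin n)),
            (Real.exp 1 * (m * q / 4)) ^ (2 * m) :=
            sum_le_sum fun S hS => prob_dense h0 h1 hm.1 hmq S (mem_powersetCard.mp hS).2
        _ = _ := by
            rw [sum_const, card_powersetCard, card_univ, Fintype.card_fin, nsmul_eq_mul]
  · refine (pw_exists_le h0.le h1 _ _).trans (sum_le_sum fun m hm => ?_)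
    refine (pw_exists_le h0.le h1 _ _).trans ?_
    calc _ ≤ ∑ S ∈ powersetCard m (univ : Finset (Fin n)),
          Real.exp (θc * m₀ - q * (m * (n - m : ℕ)) * (1 - Real.exp (-θc))) :=
          sum_le_sum fun S hS => prob_cut h0.le h1 hθc S (mem_powersetCard.mp hS).2
      _ = _ := by
          rw [sum_const, card_powersetCard, card_univ, Fintype.card_fin, nsmul_eq_mul]

end Events

end Pool.Agent.Lib.MP_ba8b4a_pr
end
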