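import Mathlib
import Pool.Agent.Lib.MP_ba8b4a_pr.Bern

section

open Finset Filter
open scoped Topology

namespace Pool.Agent.Lib.MP_ba8b4a_pr

lemma choose_le_exp_pow (n m : ℕ) (hm : 0 < m) :
    (n.choose m : ℝ) ≤ (Real.exp 1 * n / m) ^ m := by
  have hm' : (0 : ℝ) < m := by exact_mod_cast hm
  have h1 : (n.choose m : ℝ) ≤ (n : ℝ) ^ m / m.factorial := Nat.choose_le_pow_div m n
  have h2 : (m : ℝ) ^ m / m.factorial ≤ Real.exp m := Real.pow_div_factorial_le_exp _ hm'.le _
  have h3 : Real.exp m = Real.exp 1 ^ m := by rw [← Real.exp_nat_mul, mul_one]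
  calc (n.choose m : ℝ) ≤ (n : ℝ) ^ m / m.factorial := h1
    _ = ((n : ℝ) / m) ^ m * ((m : ℝ) ^ m / m.factorial) := by
        rw [div_pow]; field_simp
    _ ≤ ((n : ℝ) / m) ^ m * Real.exp 1 ^ m := by
        rw [← h3]; gcongr
    _ = _ := by rw [← mul_pow]; ring

lemma tendsto_log_nat : Tendsto (fun n : ℕ => Real.log n) atTop atTop :=
  Real.tendsto_log_atTop.comp tendsto_natCast_atTop_atTop

/-- `L^s e^{-δL} → 0` -/
lemma tendsto_pow_exp_neg (s : ℕ) {δ : ℝ} (hδ : 0 < δ) :
    Tendsto (fun x : ℝ => x ^ s * Real.exp (-(δ * x))) atTop (𝓝 0) := by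
  have h := (Real.tendsto_pow_mul_exp_neg_atTop_nhds_zero s).comp
    (tendsto_id.const_mul_atTop hδ)
  have h2 := h.const_mul ((1 / δ) ^ s)
  rw [mul_zero] at h2
  refine h2.congr fun x => ?_
  simp only [Function.comp_apply, id]
  rw [mul_pow, ← mul_assoc, ← mul_assoc, ← mul_pow, one_div_mul_cancel hδ.ne', one_pow, one_mul]

lemma sum_geom_le {x : ℝ} (h0 : 0 ≤ x) (h1 : x ≤ 1 / 2) (S : Finset ℕ) (hS : ∀ m ∈ S, 1 ≤ m) :
    ∑ m ∈ S, x ^ m ≤ 2 * x := by
  have hx1 : x < 1 := by linarith
  have hsum : Summable (fun m : ℕ => x ^ m) := summable_geometric_of_lt_one h0 hx1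
  have h2 : ∑ m ∈ S, x ^ m = x * ∑ m ∈ S, x ^ (m - 1) := by
    rw [mul_sum]
    apply sum_congr rfl
    intro m hm
    have := hS m hm
    rw [← pow_succ']
    congr 1
    omega
  have h3 : ∑ m ∈ S, x ^ (m - 1) ≤ 2 := by
    have h4 : ∑ m ∈ S, x ^ (m - 1) = ∑ j ∈ S.image (fun m => m - 1), x ^ j := by
      rw [sum_image]
      intro a ha b hb hab
      have h5 := hS a ha
      have h6 := hS b hb
      simp only at hab
      omega
    rw [h4]
    calc _ ≤ ∑' j : ℕ, x ^ j := hsum.sum_le_tsum _ (fun j _ => pow_nonneg h0 j)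
      _ = (1 - x)⁻¹ := tsum_geometric_of_lt_one h0 hx1
      _ ≤ 2 := by
        rw [inv_le_comm₀ (by linarith) (by norm_num)]
        linarith
  rw [h2]
  nlinarith

/-- the failure probability of `Good` tends to `0` above the threshold -/
lemma tendsto_not_good {c : ℝ} (hc : 1 < c) :
    ∃ (q : ℕ → ℝ) (m₀ : ℕ → ℕ), (∀ᶠ n in atTop, 0 < q n ∧ q n < 1) ∧
      Tendsto (fun n => pw (q n) (fun A : Finset (Sym2 (Fin n)) =>
        ¬ Good A ⌊c * Real.log n⌋₊ (m₀ n))) atTop (𝓝 0) := by
  -- constants
  set c₂ : ℝ := (1 + c) / 2 with hc₂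
  have hc₂1 : 1 < c₂ := by rw [hc₂]; linarith
  have hc₂c : c₂ < c := by rw [hc₂]; linarith
  have hc₂0 : 0 < c₂ := by linarith
  -- θa
  set θa : ℝ := -Real.log ((1 - 1 / c₂) / 2) with hθa
  have hval0 : 0 < (1 - 1 / c₂) / 2 := by
    have : 1 / c₂ < 1 := by rw [div_lt_one hc₂0]; exact hc₂1
    linarith
  have hval1 : (1 - 1 / c₂) / 2 < 1 := by
    have : 0 < 1 / c₂ := by positivity
    linarith
  have hθa0 : 0 ≤ θa := by
    rw [hθa]
    have := Real.log_nonpos hval0.le hval1.le
    linarith
  have hexpa : Real.exp (-θa) = (1 - 1 / c₂) / 2 := by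
    rw [hθa, neg_neg, Real.exp_log hval0]
  set a : ℝ := c₂ * (1 - Real.exp (-θa)) with ha
  have ha_eq : a = (c₂ + 1) / 2 := by
    rw [ha, hexpa]; field_simp; ring
  have ha1 : 1 < a := by rw [ha_eq]; linarith
  -- θb
  set θb : ℝ := min 1 ((c - c₂) / (2 * c₂)) with hθb
  have hθb0 : 0 < θb := by
    apply lt_min one_pos
    apply div_pos <;> linarith
  have hθb1 : θb ≤ 1 := min_le_left _ _
  have hθb2 : c₂ * θb ≤ (c - c₂) / 2 := by
    have : θb ≤ (c - c₂) / (2 * c₂) := min_le_right _ _
    rw [le_div_iff₀ (by positivity)] at this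
    linarith
  set I : ℝ := c * θb - c₂ * (Real.exp θb - 1) with hI
  have hI0 : 0 < I := by
    have h1 := Real.abs_exp_sub_one_sub_id_le (x := θb) (by rw [abs_of_pos hθb0]; exact hθb1)
    have h2 : Real.exp θb - 1 ≤ θb + θb ^ 2 := by
      have := (abs_le.mp h1).2
      linarith
    have h3 : c₂ * (Real.exp θb - 1) ≤ c₂ * (θb + θb ^ 2) := by gcongr
    rw [hI]
    nlinarith
  -- η
  set η : ℝ := min (I / 2) (1 / 4) with hη
  have hη0 : 0 < η := lt_min (by linarith) (by norm_num)
  have hηI : η ≤ I / 2 := min_le_left _ _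
  have hη4 : η ≤ 1 / 4 := min_le_right _ _
  -- s
  set s : ℕ := ⌈2 / I⌉₊ with hs
  have hsI : 2 ≤ s * I := by
    have := Nat.le_ceil (2 / I)
    rw [div_le_iff₀ hI0] at this
    exact this
  set q : ℕ → ℝ := fun n => c₂ * Real.log n / n with hq
  set m₀ : ℕ → ℕ := fun n => ⌊Real.exp ((1 - η) * Real.log n)⌋₊ with hm₀
  refine ⟨q, m₀, ?_, ?_⟩
  · -- q ∈ (0,1)
    have h1 : Tendsto q atTop (𝓝 0) := by
      have h2 := (Real.isLittleO_log_id_atTop.tendsto_div_nhds_zero).comp
        (tendsto_natCast_atTop_atTop (R := ℝ))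
      have h3 := h2.const_mul c₂
      rw [mul_zero] at h3
      refine h3.congr fun n => ?_
      simp only [Function.comp_apply, id, hq]
      ring
    filter_upwards [h1.eventually_lt_const (show (0 : ℝ) < 1 by norm_num),
      tendsto_log_nat.eventually_gt_atTop 0, eventually_gt_atTop 0] with n h2 h3 h4
    have : (0 : ℝ) < n := by exact_mod_cast h4
    exact ⟨by simp only [hq]; positivity, h2⟩
  -- bounding functions
  set B : ℝ → ℝ := fun L =>
    Real.exp (θa * (s + 3 : ℕ) + a) * Real.exp (-((a - 1) * L)) +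
    c₂ ^ s * Real.exp (θb * s ^ 2) * (L ^ s * Real.exp (-(1 * L))) +
    2 * (2 * c₂ ^ 2 * (L ^ 2 * Real.exp (-(η * L)))) +
    2 * (Real.exp (1 + θa) * Real.exp (-(1 / 4 * L))) +
    Real.exp θb / θb * Real.exp (-(I / 2 * L)) with hB
  have hexp0 : ∀ {δ : ℝ}, 0 < δ → Tendsto (fun x : ℝ => Real.exp (-(δ * x))) atTop (𝓝 0) := by
    intro δ hδ
    have := tendsto_pow_exp_neg 0 hδ
    simpa using this
  have hBlim : Tendsto B atTop (𝓝 0) := by
    have e1 := (hexp0 (show 0 < a - 1 by linarith)).const_mul (Real.exp (θa * (s + 3 : ℕ) + a))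
    have e2 := (tendsto_pow_exp_neg s one_pos).const_mul (c₂ ^ s * Real.exp (θb * s ^ 2))
    have e3 := ((tendsto_pow_exp_neg 2 hη0).const_mul (2 * c₂ ^ 2)).const_mul 2
    have e4 := ((hexp0 (show (0 : ℝ) < 1 / 4 by norm_num)).const_mul (Real.exp (1 + θa))).const_mul 2
    have e5 := (hexp0 (show 0 < I / 2 by linarith)).const_mul (Real.exp θb / θb)
    have := (((e1.add e2).add e3).add e4).add e5
    simpa [hB] using this
  -- smallness conditions
  have hx3 : ∀ᶠ n : ℕ in atTop, 2 * c₂ ^ 2 * (Real.log n ^ 2 * Real.exp (-(η * Real.log n))) ≤ 1 / 2 := by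
    have e := ((tendsto_pow_exp_neg 2 hη0).const_mul (2 * c₂ ^ 2)).comp tendsto_log_nat
    rw [mul_zero] at e
    exact e.eventually_le_const (by norm_num)
  have hx4 : ∀ᶠ n : ℕ in atTop, Real.exp (1 + θa) * Real.exp (-(1 / 4 * Real.log n)) ≤ 1 / 2 := by
    have e := ((hexp0 (show (0 : ℝ) < 1 / 4 by norm_num)).const_mul (Real.exp (1 + θa))).comp
      tendsto_log_nat
    rw [mul_zero] at e
    exact e.eventually_le_const (by norm_num)
  have hx5 : ∀ᶠ n : ℕ in atTop, c₂ * (Real.log n ^ 1 * Real.exp (-(η * Real.log n))) ≤ 4 := by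
    have e := ((tendsto_pow_exp_neg 1 hη0).const_mul c₂).comp tendsto_log_nat
    rw [mul_zero] at e
    exact e.eventually_le_const (by norm_num)
  have hqlt : ∀ᶠ n : ℕ in atTop, q n ≤ 1 := by
    have h2 := (Real.isLittleO_log_id_atTop.tendsto_div_nhds_zero).comp
      (tendsto_natCast_atTop_atTop (R := ℝ))
    have h3 := h2.const_mul c₂
    rw [mul_zero] at h3
    filter_upwards [h3.eventually_le_const (show (0 : ℝ) < 1 by norm_num)] with n hn
    simp only [Function.comp_apply, id] at hn
    simp only [hq]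
    calc c₂ * Real.log n / n = c₂ * (Real.log n / n) := by ring
      _ ≤ 1 := hn
  have hnonneg : ∀ᶠ n : ℕ in atTop, 0 ≤ pw (q n) (fun A : Finset (Sym2 (Fin n)) =>
        ¬ Good A ⌊c * Real.log n⌋₊ (m₀ n)) := by
    filter_upwards [hqlt, tendsto_log_nat.eventually_ge_atTop 0] with n h1 h2
    apply pw_nonneg _ h1
    simp only [hq]; positivity
  refine squeeze_zero' hnonneg ?_ (hBlim.comp tendsto_log_nat)
  filter_upwards [hx3, hx4, hx5, hqlt, tendsto_log_nat.eventually_ge_atTop 1,
    tendsto_log_nat.eventually_ge_atTop ((s + 5) / c), eventually_ge_atTop 2] with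
    n h3 h4 h5 hq1 hL1 hLs hn2
  set L := Real.log n with hLdef
  have hn0 : (0 : ℝ) < n := by positivity
  have hn2' : (2 : ℝ) ≤ n := by exact_mod_cast hn2
  have hexpL : Real.exp L = n := Real.exp_log hn0
  have hLn : L ≤ n := by
    have := Real.log_le_sub_one_of_pos hn0
    linarith
  have hq0 : 0 < q n := by simp only [hq]; positivity
  have hnq : n * q n = c₂ * L := by simp only [hq, ← hLdef]; field_simp
  set k := ⌊c * L⌋₊ with hk
  have hkge : c * L < k + 1 := Nat.lt_floor_add_one _
  have hks : s + 4 ≤ k := by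
    apply Nat.le_floor
    rw [div_le_iff₀ (by linarith)] at hLs
    push_cast
    linarith
  -- m₀
  have hm₀le : (m₀ n : ℝ) ≤ Real.exp ((1 - η) * L) := Nat.floor_le (Real.exp_pos _).le
  have hm₀ge : Real.exp ((1 - η) * L) < m₀ n + 1 := Nat.lt_floor_add_one _
  have hpow : Real.exp ((1 - η) * L) = n * Real.exp (-(η * L)) := by
    rw [← hexpL, ← Real.exp_add]; ring_nf
  have hm₀q : m₀ n * q n ≤ 4 := by
    calc m₀ n * q n ≤ (n * Real.exp (-(η * L))) * q n := by
          rw [← hpow]; gcongr
      _ = (n * q n) * Real.exp (-(η * L)) := by ring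
      _ = c₂ * (L ^ 1 * Real.exp (-(η * L))) := by rw [hnq]; ring
      _ ≤ 4 := h5
  refine (prob_not_good hq0 hq1 hθa0 hθb0 hθa0 hks hm₀q).trans ?_
  simp only [hB, Function.comp_apply]
  refine add_le_add (add_le_add (add_le_add (add_le_add ?_ ?_) ?_) ?_) ?_
  · -- term 1
    have hcast : ((n - 1 : ℕ) : ℝ) = n - 1 := by
      rw [Nat.cast_sub (by omega)]; simp
    have h6 : q n * ((n - 1 : ℕ) : ℝ) * (1 - Real.exp (-θa)) ≥ a * L - a := by
      rw [hcast]
      have h7 : q n * (n - 1) ≥ c₂ * L - c₂ := by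
        have h8 : q n ≤ c₂ := by
          simp only [hq]
          rw [div_le_iff₀ hn0]
          exact mul_le_mul_of_nonneg_left hLn hc₂0.le
        nlinarith
      have h9 : 0 ≤ 1 - Real.exp (-θa) := by rw [hexpa]; linarith
      calc q n * (n - 1) * (1 - Real.exp (-θa)) ≥ (c₂ * L - c₂) * (1 - Real.exp (-θa)) := by
            exact mul_le_mul_of_nonneg_right h7 h9
        _ = a * L - a := by rw [ha]; ring
    calc (n : ℝ) * Real.exp (θa * (s + 3 : ℕ) - q n * ((n - 1 : ℕ) : ℝ) * (1 - Real.exp (-θa)))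
        ≤ Real.exp L * Real.exp (θa * (s + 3 : ℕ) - (a * L - a)) := by
          rw [hexpL]
          gcongr
      _ = Real.exp (θa * (s + 3 : ℕ) + a) * Real.exp (-((a - 1) * L)) := by
          rw [← Real.exp_add, ← Real.exp_add]; ring_nf
  · -- term 2
    have h6 : -(θb * (s * ((k : ℝ) + 1 - s))) + q n * (s * n) * (Real.exp θb - 1) ≤
        θb * s ^ 2 - s * I * L := by
      have h7 : q n * (s * n) = s * (c₂ * L) := by rw [← hnq]; ring
      rw [h7, hI]
      have h8 : θb * (s * (c * L)) ≤ θb * (s * (k + 1)) := by gcongr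
      nlinarith
    have h9 : (n : ℝ) ^ s * (q n ^ s * Real.exp (-(θb * (s * ((k : ℝ) + 1 - s))) +
        q n * (s * n) * (Real.exp θb - 1))) ≤
        (c₂ * L) ^ s * Real.exp (θb * s ^ 2 - s * I * L) := by
      rw [← mul_assoc, ← mul_pow, hnq]
      gcongr
    calc (n : ℝ) * ((n : ℝ) ^ s * (q n ^ s * Real.exp (-(θb * (s * ((k : ℝ) + 1 - s))) +
        q n * (s * n) * (Real.exp θb - 1))))
        ≤ Real.exp L * ((c₂ * L) ^ s * Real.exp (θb * s ^ 2 - s * I * L)) := by
          rw [hexpL]; gcongr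
      _ ≤ Real.exp L * ((c₂ * L) ^ s * Real.exp (θb * s ^ 2 - 2 * L)) := by
          gcongr
      _ = c₂ ^ s * Real.exp (θb * s ^ 2) * (L ^ s * Real.exp (-(1 * L))) := by
          rw [mul_pow]
          have : Real.exp (θb * s ^ 2 - 2 * L) = Real.exp (θb * s ^ 2) * Real.exp (-(2 * L)) := by
            rw [← Real.exp_add]; ring_nf
          rw [this]
          have h10 : Real.exp (-(1 * L)) = Real.exp L * Real.exp (-(2 * L)) := by
            rw [← Real.exp_add]; ring_nf
          rw [h10]; ring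
  · -- term 3
    have hterm : ∀ m ∈ Icc 1 (m₀ n), (n.choose m : ℝ) * (Real.exp 1 * (m * q n / 4)) ^ (2 * m) ≤
        (2 * c₂ ^ 2 * (L ^ 2 * Real.exp (-(η * L)))) ^ m := by
      intro m hm
      rw [mem_Icc] at hm
      have hm0 : (0 : ℝ) < m := by exact_mod_cast hm.1
      have hmm : (m : ℝ) ≤ n * Real.exp (-(η * L)) := by
        rw [← hpow]
        refine le_trans ?_ hm₀le
        exact_mod_cast hm.2
      calc (n.choose m : ℝ) * (Real.exp 1 * (m * q n / 4)) ^ (2 * m)
          ≤ (Real.exp 1 * n / m) ^ m * (Real.exp 1 * (m * q n / 4)) ^ (2 * m) := by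
            gcongr
            exact choose_le_exp_pow n m hm.1
        _ = (Real.exp 1 ^ 3 / 16 * ((n * q n) ^ 2 * (m / n))) ^ m := by
            rw [pow_mul, ← mul_pow]
            congr 1
            field_simp
            ring
        _ ≤ (2 * c₂ ^ 2 * (L ^ 2 * Real.exp (-(η * L)))) ^ m := by
            apply pow_le_pow_left₀ (by positivity)
            rw [hnq]
            have he : Real.exp 1 ^ 3 / 16 ≤ 2 := by
              have h6 := Real.exp_one_lt_d9.le
              have h7 : Real.exp 1 ^ 3 ≤ 2.7182818286 ^ 3 := by gcongr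
              norm_num at h7 ⊢
              linarith
            have hmn : (m : ℝ) / n ≤ Real.exp (-(η * L)) := by
              rw [div_le_iff₀ hn0]; linarith
            calc Real.exp 1 ^ 3 / 16 * ((c₂ * L) ^ 2 * (m / n))
                ≤ 2 * ((c₂ * L) ^ 2 * Real.exp (-(η * L))) := by gcongr
              _ = _ := by ring
    refine (sum_le_sum hterm).trans ?_
    exact sum_geom_le (by positivity) h3 _ fun m hm => (mem_Icc.mp hm).1
  · -- term 4
    have hterm : ∀ m ∈ Ioc (m₀ n) (n / 2), (n.choose m : ℝ) *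
        Real.exp (θa * m₀ n - q n * (m * (n - m : ℕ)) * (1 - Real.exp (-θa))) ≤
        (Real.exp (1 + θa) * Real.exp (-(1 / 4 * L))) ^ m := by
      intro m hm
      rw [mem_Ioc] at hm
      have hmpos : 0 < m := by omega
      have hm0 : (0 : ℝ) < m := by exact_mod_cast hmpos
      have hmn2 : 2 * m ≤ n := by omega
      have hmn2' : 2 * (m : ℝ) ≤ n := by exact_mod_cast hmn2
      have hcast : ((n - m : ℕ) : ℝ) = n - m := by
        rw [Nat.cast_sub (by omega)]
      have hmge : n * Real.exp (-(η * L)) ≤ m := by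
        rw [← hpow]
        have : (m₀ n : ℝ) + 1 ≤ m := by exact_mod_cast hm.1
        linarith
      have hnm : (n : ℝ) / m ≤ Real.exp (η * L) := by
        rw [div_le_iff₀ hm0]
        have h6 : Real.exp (η * L) * (n * Real.exp (-(η * L))) ≤ Real.exp (η * L) * m := by
          gcongr
        have h7 : Real.exp (η * L) * (n * Real.exp (-(η * L))) = n := by
          rw [mul_left_comm, ← Real.exp_add]; simp
        linarith
      have h8 : θa * m₀ n - q n * (m * (n - m : ℕ)) * (1 - Real.exp (-θa)) ≤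
          m * (θa - a / 2 * L) := by
        rw [hcast]
        have h9 : θa * m₀ n ≤ θa * m := by
          have : (m₀ n : ℝ) ≤ m := by exact_mod_cast hm.1.le
          gcongr
        have h10 : c₂ * L / 2 ≤ q n * (n - m) := by
          have : q n * (n / 2) ≤ q n * (n - m) := by
            apply mul_le_mul_of_nonneg_left _ hq0.le
            linarith
          have h11 : q n * (n / 2) = c₂ * L / 2 := by rw [← hnq]; ring
          linarith
        have h12 : 0 ≤ 1 - Real.exp (-θa) := by rw [hexpa]; linarith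
        have h13 : m * (a / 2 * L) ≤ q n * (m * (n - m)) * (1 - Real.exp (-θa)) := by
          calc m * (a / 2 * L) = m * (c₂ * L / 2) * (1 - Real.exp (-θa)) := by rw [ha]; ring
            _ ≤ m * (q n * (n - m)) * (1 - Real.exp (-θa)) := by gcongr
            _ = _ := by ring
        linarith
      calc (n.choose m : ℝ) *
          Real.exp (θa * m₀ n - q n * (m * (n - m : ℕ)) * (1 - Real.exp (-θa)))
          ≤ (Real.exp 1 * n / m) ^ m * Real.exp (m * (θa - a / 2 * L)) := by
            gcongr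
            exact choose_le_exp_pow n m hmpos
        _ = (Real.exp 1 * (n / m) * Real.exp (θa - a / 2 * L)) ^ m := by
            rw [Real.exp_nat_mul, ← mul_pow]
            congr 1; ring
        _ ≤ (Real.exp 1 * Real.exp (η * L) * Real.exp (θa - a / 2 * L)) ^ m := by
            gcongr
        _ ≤ (Real.exp (1 + θa) * Real.exp (-(1 / 4 * L))) ^ m := by
            apply pow_le_pow_left₀ (by positivity)
            rw [← Real.exp_add, ← Real.exp_add, ← Real.exp_add]
            apply Real.exp_le_exp.mpr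
            have h14 : η * L ≤ 1 / 4 * L := by gcongr
            have h15 : 1 / 2 * L ≤ a / 2 * L := by
              apply mul_le_mul_of_nonneg_right _ (by linarith)
              linarith
            linarith
    refine (sum_le_sum hterm).trans ?_
    exact sum_geom_le (by positivity) h4 _ fun m hm => by
      have := (mem_Ioc.mp hm).1
      omega
  · -- term 5
    have hcast : ((n - 1 : ℕ) : ℝ) ≤ n := by exact_mod_cast Nat.sub_le n 1
    have hb0 : 0 ≤ Real.exp θb - 1 := by
      have := Real.one_le_exp hθb0.le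
      linarith
    have h6 : -(θb * k) + q n * (n - 1 : ℕ) * (Real.exp θb - 1) ≤ θb - I * L := by
      have h7 : q n * ((n - 1 : ℕ) : ℝ) ≤ c₂ * L := by
        rw [← hnq, mul_comm (n : ℝ)]
        gcongr
      have h8 : q n * ((n - 1 : ℕ) : ℝ) * (Real.exp θb - 1) ≤ c₂ * L * (Real.exp θb - 1) := by
        gcongr
      have h9 : θb * (c * L) ≤ θb * (k + 1) := by gcongr
      rw [hI]
      nlinarith
    have h10 : θb * (n * Real.exp (-(η * L))) ≤ θb * (m₀ n + 1) := by
      rw [← hpow]; gcongr
    calc (n : ℝ) * Real.exp (-(θb * k) + q n * (n - 1 : ℕ) * (Real.exp θb - 1)) /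
          (θb * (m₀ n + 1))
        ≤ n * Real.exp (θb - I * L) / (θb * (n * Real.exp (-(η * L)))) := by
          gcongr
      _ = Real.exp θb / θb * (Real.exp (-(I * L)) * Real.exp (η * L)) := by
          rw [Real.exp_sub, Real.exp_neg, Real.exp_neg]
          field_simp
      _ ≤ Real.exp θb / θb * Real.exp (-(I / 2 * L)) := by
          rw [← Real.exp_add]
          gcongr
          have : η * L ≤ I / 2 * L := by gcongr
          linarith

end Pool.Agent.Lib.MP_ba8b4a_pr
end

section

open Finset MeasureTheory ProbabilityTheory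

namespace Pool.Agent.Lib.MP_ba8b4a_pr

section Indep

variable {E : Type} [Fintype E] [DecidableEq E]

/-- events that depend on disjoint sets of coordinates are independent -/
lemma indep_of_dependsOn (ν : Measure ℝ) [IsProbabilityMeasure ν] (S T : Finset E)
    (hST : Disjoint S T) (U V : Set (E → ℝ)) (hU : MeasurableSet U) (hV : MeasurableSet V)
    (hUS : ∀ C C' : E → ℝ, (∀ e ∈ S, C e = C' e) → C ∈ U → C' ∈ U)
    (hVT : ∀ C C' : E → ℝ, (∀ e ∈ T, C e = C' e) → C ∈ V → C' ∈ V) :
    (Measure.pi fun _ : E => ν) (U ∩ V) =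
      (Measure.pi fun _ : E => ν) U * (Measure.pi fun _ : E => ν) V := by
  have hi : iIndepFun (fun (i : E) (ω : E → ℝ) => ω i) (Measure.pi fun _ : E => ν) :=
    iIndepFun_pi (X := fun (i : E) (b : ℝ) => b) (fun i => measurable_id.aemeasurable)
  have h2 := hi.indepFun_finset S T hST (fun i => measurable_pi_apply i)
  -- extension maps
  have hext : ∀ R : Finset E, Measurable (fun (y : R → ℝ) (e : E) =>
      if h : e ∈ R then y ⟨e, h⟩ else 0) := by
    intro R
    apply measurable_pi_lambda
    intro e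
    by_cases h : e ∈ R
    · simp only [h, dif_pos]; exact measurable_pi_apply _
    · simp only [h, dif_neg, not_false_eq_true]; exact measurable_const
  have hU' : U = (fun (ω : E → ℝ) (i : S) => ω i) ⁻¹'
      ((fun (y : S → ℝ) (e : E) => if h : e ∈ S then y ⟨e, h⟩ else 0) ⁻¹' U) := by
    ext C
    simp only [Set.mem_preimage]
    constructor
    · intro h
      apply hUS C _ _ h
      intro e he; rw [dif_pos he]
    · intro h
      apply hUS _ C _ h
      intro e he; rw [dif_pos he]
  have hV' : V = (fun (ω : E → ℝ) (i : T) => ω i) ⁻¹'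
      ((fun (y : T → ℝ) (e : E) => if h : e ∈ T then y ⟨e, h⟩ else 0) ⁻¹' V) := by
    ext C
    simp only [Set.mem_preimage]
    constructor
    · intro h
      apply hVT C _ _ h
      intro e he; rw [dif_pos he]
    · intro h
      apply hVT _ C _ h
      intro e he; rw [dif_pos he]
  have h3 := h2.measure_inter_preimage_eq_mul
    ((fun (y : S → ℝ) (e : E) => if h : e ∈ S then y ⟨e, h⟩ else 0) ⁻¹' U)
    ((fun (y : T → ℝ) (e : E) => if h : e ∈ T then y ⟨e, h⟩ else 0) ⁻¹' V)
    (hext S hU) (hext T hV)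
  rw [← hU', ← hV'] at h3
  exact h3

lemma measurableSet_filter {Ω : Type*} [MeasurableSpace Ω] {ι : Type*} [Fintype ι] [DecidableEq ι]
    (P : ι → Ω → Prop) [∀ i ω, Decidable (P i ω)] (hP : ∀ i, MeasurableSet {ω | P i ω})
    (Q : Finset ι → Prop) : MeasurableSet {ω | Q (univ.filter (fun i => P i ω))} := by
  have h1 : {ω | Q (univ.filter (fun i => P i ω))} =
      ⋃ S : Finset ι, {ω | Q S} ∩ ⋂ i, {ω | P i ω ↔ i ∈ S} := by
    ext ω
    simp only [Set.mem_ofPred_eq, Set.mem_iUnion, Set.mem_inter_iff, Set.mem_iInter]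
    constructor
    · intro h
      exact ⟨_, h, fun i => by simp⟩
    · rintro ⟨S, hS, h⟩
      have : univ.filter (fun i => P i ω) = S := by
        ext i; simp [h i]
      rwa [this]
  rw [h1]
  refine MeasurableSet.iUnion fun S => (MeasurableSet.const _).inter
    (MeasurableSet.iInter fun i => ?_)
  by_cases h : i ∈ S
  · simpa [h] using hP i
  · have : {ω | P i ω ↔ i ∈ S} = {ω | P i ω}ᶜ := by
      ext ω; simp [h]
    rw [this]
    exact (hP i).compl

end Indep

section Costs

variable {n : ℕ} (ν : Measure ℝ) [IsProbabilityMeasure ν]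

lemma below_law {t q : ℝ} (h0 : 0 ≤ q) (h1 : q ≤ 1) (hν : ν (Set.Iio t) = ENNReal.ofReal q)
    (A : Finset (Sym2 (Fin n))) :
    (Measure.pi fun _ : Sym2 (Fin n) => ν) {C | below t C = A} = ENNReal.ofReal (wgt q A) := by
  have h2 : {C : Sym2 (Fin n) → ℝ | below t C = A} =
      Set.univ.pi (fun e => if e ∈ A then Set.Iio t else Set.Ici t) := by
    ext C
    simp only [Set.mem_ofPred_eq, Set.mem_pi, Set.mem_univ, forall_const]
    constructor
    · rintro rfl e
      by_cases he : e ∈ below t C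
      · rw [if_pos he]; exact mem_below.mp he
      · rw [if_neg he]; rw [mem_below] at he; exact not_lt.mp he
    · intro h
      ext e
      rw [mem_below]
      have := h e
      by_cases he : e ∈ A
      · rw [if_pos he] at this; simpa [he] using this
      · rw [if_neg he] at this
        simp only [Set.mem_Ici] at this
        simp [he, this]
  have h3 : ν (Set.Ici t) = ENNReal.ofReal (1 - q) := by
    rw [← Set.compl_Iio, prob_compl_eq_one_sub measurableSet_Iio, hν,
      ENNReal.ofReal_sub _ h0, ENNReal.ofReal_one]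
  rw [h2, Measure.pi_pi]
  have h4 : ∀ e : Sym2 (Fin n), ν (if e ∈ A then Set.Iio t else Set.Ici t) =
      if e ∈ A then ENNReal.ofReal q else ENNReal.ofReal (1 - q) := by
    intro e
    split_ifs
    · exact hν
    · exact h3
  simp_rw [h4]
  rw [prod_ite, prod_const, prod_const]
  unfold wgt
  rw [ENNReal.ofReal_mul (pow_nonneg h0 _), ENNReal.ofReal_pow h0,
    ENNReal.ofReal_pow (by linarith)]
  congr 2
  · simp
  · rw [filter_not, ← compl_eq_univ_sdiff, card_compl]
    simp

lemma below_prob {t q : ℝ} (h0 : 0 ≤ q) (h1 : q ≤ 1) (hν : ν (Set.Iio t) = ENNReal.ofReal q)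
    (P : Finset (Sym2 (Fin n)) → Prop) :
    (Measure.pi fun _ : Sym2 (Fin n) => ν) {C | P (below t C)} = ENNReal.ofReal (pw q P) := by
  classical
  have h2 : {C : Sym2 (Fin n) → ℝ | P (below t C)} =
      ⋃ A ∈ (univ.filter P : Finset (Finset (Sym2 (Fin n)))), {C | below t C = A} := by
    ext C
    simp
  have hm : ∀ A : Finset (Sym2 (Fin n)), MeasurableSet {C : Sym2 (Fin n) → ℝ | below t C = A} := by
    intro A
    unfold below
    apply measurableSet_filter (fun e (C : Sym2 (Fin n) → ℝ) => C e < t)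
      (fun e => measurableSet_lt (measurable_pi_apply e) measurable_const) (fun S => S = A)
  rw [h2, measure_biUnion_finset]
  · unfold pw
    rw [ENNReal.ofReal_sum_of_nonneg]
    · rw [sum_filter]
      apply sum_congr rfl
      intro A _
      by_cases hP : P A
      · rw [if_pos hP, if_pos hP, mul_one, below_law ν h0 h1 hν]
      · rw [if_neg hP, if_neg hP]; simp
    · intro A _
      apply mul_nonneg (wgt_nonneg h0 h1 A)
      split_ifs <;> norm_num
  · intro A _ B _ hAB
    rw [Function.onFun, Set.disjoint_left]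
    intro C hC hC'
    exact hAB (hC.symm.trans hC')
  · intro A _
    exact hm A

end Costs

end Pool.Agent.Lib.MP_ba8b4a_pr
end

section

open Finset

namespace Pool.Agent.Lib.MP_ba8b4a_pr

section General

variable {E : Type*} [Fintype E] [DecidableEq E]

lemma sum_wgt_disjoint (q : ℝ) (F : Finset E) :
    ∑ A : Finset E, wgt q A * (if Disjoint A F then 1 else 0) = (1 - q) ^ #F := by
  have h := sum_wgt_prod q (fun e : E => if e ∈ F then (0 : ℝ) else 1) (fun _ => (1 : ℝ))
  have h1 : ∀ A : Finset E, (∏ e ∈ A, if e ∈ F then (0 : ℝ) else 1) =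
      if Disjoint A F then 1 else 0 := by
    intro A
    by_cases hA : Disjoint A F
    · rw [if_pos hA]
      apply prod_eq_one
      intro e he
      rw [if_neg (disjoint_left.mp hA he)]
    · rw [if_neg hA]
      obtain ⟨e, he, heF⟩ := not_disjoint_iff.mp hA
      apply prod_eq_zero he
      rw [if_pos heF]
  have h2 : ∏ e, (q * (if e ∈ F then (0 : ℝ) else 1) + (1 - q) * 1) = (1 - q) ^ #F := by
    have h3 : ∀ e : E, (q * (if e ∈ F then (0 : ℝ) else 1) + (1 - q) * 1) =
        if e ∈ F then (1 - q) else 1 := by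
      intro e
      split_ifs <;> ring
    simp_rw [h3]
    rw [prod_ite_mem, univ_inter, prod_const]
  rw [← h2, ← h]
  apply sum_congr rfl
  intro A _
  rw [h1, prod_const_one, mul_one]

end General

section Events

variable {n : ℕ}

lemma nbr_eq_empty_iff (A : Finset (Sym2 (Fin n))) (v : Fin n) :
    nbr A v = ∅ ↔ Disjoint A (star v) := by
  rw [← card_eq_zero, card_nbr, card_eq_zero, disjoint_iff_inter_eq_empty]

lemma card_star_union {i j : Fin n} (h : i ≠ j) : #(star i ∪ star j) = 2 * n - 3 := by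
  have h1 : star i ∩ star j = {s(i, j)} := by
    ext e
    simp only [mem_inter, star, mem_image, mem_erase, mem_univ, and_true, mem_singleton]
    constructor
    · rintro ⟨⟨a, ha, rfl⟩, ⟨b, hb, hab⟩⟩
      rw [Sym2.eq_iff] at hab
      rcases hab with ⟨h1, h2⟩ | ⟨h1, h2⟩
      · exact absurd h1.symm h
      · rw [h1]
    · rintro rfl
      exact ⟨⟨j, h.symm, rfl⟩, ⟨i, h, Sym2.eq_swap⟩⟩
  have h2 := card_union_add_card_inter (star i) (star j)
  rw [h1, card_singleton, card_star, card_star] at h2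
  have h3 : 2 ≤ n := by
    have := i.2; have := j.2
    by_contra h4
    apply h
    ext
    omega
  omega

/-- number of isolated vertices of the graph with edge set `A` -/
def isoCount (A : Finset (Sym2 (Fin n))) : ℕ := #{i : Fin n | nbr A i = ∅}

lemma isoCount_eq (A : Finset (Sym2 (Fin n))) :
    (isoCount A : ℝ) = ∑ i : Fin n, if Disjoint A (star i) then (1 : ℝ) else 0 := by
  unfold isoCount
  rw [card_filter]
  push_cast
  apply sum_congr rfl
  intro i _
  simp only [nbr_eq_empty_iff]

lemma mean_iso (q : ℝ) :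
    ∑ A : Finset (Sym2 (Fin n)), wgt q A * (isoCount A : ℝ) = n * (1 - q) ^ (n - 1) := by
  simp_rw [isoCount_eq, mul_sum]
  rw [sum_comm]
  simp_rw [sum_wgt_disjoint, card_star]
  simp

lemma second_iso (q : ℝ) :
    ∑ A : Finset (Sym2 (Fin n)), wgt q A * (isoCount A : ℝ) ^ 2 =
      n * (1 - q) ^ (n - 1) + n * (n - 1) * (1 - q) ^ (2 * n - 3) := by
  have h1 : ∀ A : Finset (Sym2 (Fin n)), (isoCount A : ℝ) ^ 2 =
      ∑ i : Fin n, ∑ j : Fin n, if Disjoint A (star i ∪ star j) then (1 : ℝ) else 0 := by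
    intro A
    rw [isoCount_eq, sq, sum_mul_sum]
    apply sum_congr rfl
    intro i _
    apply sum_congr rfl
    intro j _
    simp only [disjoint_union_right]
    by_cases h1 : Disjoint A (star i) <;> by_cases h2 : Disjoint A (star j) <;> simp [h1, h2]
  simp_rw [h1, mul_sum]
  rw [sum_comm]
  have h2 : ∀ i : Fin n, ∑ A : Finset (Sym2 (Fin n)), ∑ j : Fin n,
      wgt q A * (if Disjoint A (star i ∪ star j) then (1 : ℝ) else 0) =
      (1 - q) ^ (n - 1) + (n - 1) * (1 - q) ^ (2 * n - 3) := by
    intro i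
    rw [sum_comm]
    simp_rw [sum_wgt_disjoint]
    rw [← add_sum_erase univ _ (mem_univ i)]
    congr 1
    · rw [union_self, card_star]
    · have h3 : ∀ j ∈ univ.erase i, (1 - q) ^ #(star i ∪ star j) = (1 - q) ^ (2 * n - 3) := by
        intro j hj
        rw [card_star_union (ne_of_mem_erase hj).symm]
      rw [sum_congr rfl h3, sum_const, card_erase_of_mem (mem_univ i), card_univ,
        Fintype.card_fin, nsmul_eq_mul]
      have : 1 ≤ n := by have := i.2; omega
      push_cast [this]
      ring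
  simp_rw [h2]
  rw [sum_const, card_univ, Fintype.card_fin, nsmul_eq_mul]
  ring

/-- Chebyshev for the number of isolated vertices -/
lemma prob_few_iso {q : ℝ} (h0 : 0 ≤ q) (h1 : q < 1) (hn : 2 ≤ n) :
    pw q (fun A : Finset (Sym2 (Fin n)) => (isoCount A : ℝ) ≤ n * (1 - q) ^ (n - 1) / 2) ≤
      4 * (1 / (n * (1 - q) ^ (n - 1)) + q / (1 - q)) := by
  set μ : ℝ := n * (1 - q) ^ (n - 1) with hμ
  have hq : 0 < 1 - q := by linarith
  have hn0 : (0 : ℝ) < n := by exact_mod_cast (by omega : 0 < n)
  have hμ0 : 0 < μ := by positivity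
  have hsum : ∑ A : Finset (Sym2 (Fin n)), wgt q A * ((isoCount A : ℝ) - μ) ^ 2 =
      μ + n * (n - 1) * (1 - q) ^ (2 * n - 3) - μ ^ 2 := by
    have h2 : ∀ A : Finset (Sym2 (Fin n)), wgt q A * ((isoCount A : ℝ) - μ) ^ 2 =
        wgt q A * (isoCount A : ℝ) ^ 2 - 2 * μ * (wgt q A * (isoCount A : ℝ)) +
          μ ^ 2 * wgt q A := by
      intro A; ring
    simp_rw [h2]
    rw [sum_add_distrib, sum_sub_distrib, ← mul_sum, ← mul_sum, second_iso, mean_iso, sum_wgt]
    ring
  have hle : n * (n - 1) * (1 - q) ^ (2 * n - 3) ≤ μ ^ 2 / (1 - q) := by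
    have h3 : μ ^ 2 / (1 - q) = n ^ 2 * (1 - q) ^ (2 * n - 3) := by
      rw [hμ, mul_pow, ← pow_mul]
      have h4 : (n - 1) * 2 = (2 * n - 3) + 1 := by omega
      rw [h4]
      field_simp
      rw [pow_succ]
      ring
    rw [h3]
    apply mul_le_mul_of_nonneg_right _ (by positivity)
    nlinarith
  have hcheb : pw q (fun A : Finset (Sym2 (Fin n)) => (isoCount A : ℝ) ≤ μ / 2) ≤
      ∑ A : Finset (Sym2 (Fin n)), wgt q A * (4 / μ ^ 2 * ((isoCount A : ℝ) - μ) ^ 2) := by
    apply pw_le_of_le h0 h1.le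
    · intro A; positivity
    · intro A hA
      rw [div_mul_eq_mul_div, le_div_iff₀ (by positivity), one_mul]
      nlinarith [hA, hμ0]
  refine hcheb.trans ?_
  have h5 : ∑ A : Finset (Sym2 (Fin n)), wgt q A * (4 / μ ^ 2 * ((isoCount A : ℝ) - μ) ^ 2) =
      4 / μ ^ 2 * (μ + n * (n - 1) * (1 - q) ^ (2 * n - 3) - μ ^ 2) := by
    rw [← hsum, mul_sum]
    exact sum_congr rfl fun A _ => by ring
  rw [h5]
  calc 4 / μ ^ 2 * (μ + n * (n - 1) * (1 - q) ^ (2 * n - 3) - μ ^ 2)
      ≤ 4 / μ ^ 2 * (μ + μ ^ 2 / (1 - q) - μ ^ 2) := by gcongr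
    _ = 4 * (1 / μ + q / (1 - q)) := by field_simp; ring

end Events

end Pool.Agent.Lib.MP_ba8b4a_pr
end

section

open Finset MeasureTheory ProbabilityTheory

namespace Pool.Agent.Lib.MP_ba8b4a_pr

section Distinct

variable {E : Type} [Fintype E]

lemma measure_tie (ν : Measure ℝ) [IsProbabilityMeasure ν] [NullSingletonClass ν] {e e' : E} (h : e ≠ e') :
    (Measure.pi fun _ : E => ν) {C | C e = C e'} = 0 := by
  have hi : iIndepFun (fun (i : E) (ω : E → ℝ) => ω i) (Measure.pi fun _ : E => ν) :=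
    iIndepFun_pi (X := fun (i : E) (b : ℝ) => b) (fun i => measurable_id.aemeasurable)
  have h2 : IndepFun (fun ω : E → ℝ => ω e) (fun ω => ω e') (Measure.pi fun _ => ν) :=
    hi.indepFun h
  have h3 := (indepFun_iff_map_prod_eq_prod_map_map (measurable_pi_apply e).aemeasurable
    (measurable_pi_apply e').aemeasurable).mp h2
  have h4 : ∀ a : E, (Measure.pi fun _ : E => ν).map (fun ω => ω a) = ν := fun a =>
    (measurePreserving_eval (fun _ : E => ν) a).map_eq
  rw [h4 e, h4 e'] at h3
  have h5 : (ν.prod ν) {p | p.1 = p.2} = 0 := by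
    rw [Measure.measure_prod_null (measurableSet_eq_fun measurable_fst measurable_snd)]
    filter_upwards with x
    have : Prod.mk x ⁻¹' {p : ℝ × ℝ | p.1 = p.2} = {x} := by
      ext y
      simp [eq_comm]
    rw [this]
    simp
  rw [← h3, Measure.map_apply ((measurable_pi_apply e).prodMk (measurable_pi_apply e'))
    (measurableSet_eq_fun measurable_fst measurable_snd)] at h5
  exact h5

lemma ae_injective (ν : Measure ℝ) [IsProbabilityMeasure ν] [NullSingletonClass ν] :
    ∀ᵐ C ∂(Measure.pi fun _ : E => ν), Function.Injective C := by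
  have h : ∀ p : E × E, ∀ᵐ C ∂(Measure.pi fun _ : E => ν), p.1 ≠ p.2 → C p.1 ≠ C p.2 := by
    intro p
    by_cases hp : p.1 = p.2
    · filter_upwards with C h
      exact absurd hp h
    · have := measure_tie ν hp
      filter_upwards [measure_eq_zero_iff_ae_notMem.mp this] with C hC _ h
      exact hC h
  rw [← ae_all_iff] at h
  filter_upwards [h] with C hC a b hab
  by_contra hne
  exact hC (a, b) hne hab

end Distinct

section Rank

variable {n : ℕ}

lemma card_preferred_le {C : Sym2 (Fin n) → ℝ} (hC : Function.Injective C) (i : Fin n) (k : ℕ) :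
    #{j : Fin n | j ≠ i ∧ rank C i j < k} ≤ k := by
  have hlt : ∀ j j' : Fin n, j ≠ i → C s(i, j) < C s(i, j') → rank C i j < rank C i j' := by
    intro j j' hj h
    apply card_lt_card
    rw [ssubset_iff_of_subset]
    · refine ⟨j, ?_, ?_⟩
      · simp [hj, h]
      · simp
    · intro l hl
      simp only [mem_filter, mem_univ, true_and] at hl ⊢
      exact ⟨hl.1, hl.2.trans h⟩
  calc #{j : Fin n | j ≠ i ∧ rank C i j < k} ≤ #(range k) := by
        apply card_le_card_of_injOn (rank C i)
        · intro j hj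
          simp only [coe_filter, mem_univ, true_and, Set.mem_ofPred_eq] at hj
          simp [hj.2]
        · intro j hj j' hj' h
          simp only [coe_filter, mem_univ, true_and, Set.mem_ofPred_eq] at hj hj'
          by_contra hne
          have h1 : C s(i, j) ≠ C s(i, j') := by
            intro h2
            exact hne (mk_injective i (hC h2))
          rcases lt_or_gt_of_ne h1 with h2 | h2
          · exact absurd h (hlt j j' hj.1 h2).ne
          · exact absurd h.symm (hlt j' j hj'.1 h2).ne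
    _ = k := card_range k

end Rank

section Events

variable {n : ℕ} (t : ℝ) (k : ℕ)

/-- `i` has no edge cheaper than `t` and prefers `j` -/
def evU (i j : Fin n) : Set (Sym2 (Fin n) → ℝ) :=
  {C | nbr (below t C) i = ∅ ∧ rank C i j < k}

/-- `j` has fewer than `k` edges cheaper than `t`, the edge to `i` being disregarded -/
def evV (i j : Fin n) : Set (Sym2 (Fin n) → ℝ) :=
  {C | #(nbr (below t C) j \ {i}) < k}

lemma measurableSet_below (P : Finset (Sym2 (Fin n)) → Prop) :
    MeasurableSet {C : Sym2 (Fin n) → ℝ | P (below t C)} := by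
  unfold below
  exact measurableSet_filter (fun e (C : Sym2 (Fin n) → ℝ) => C e < t)
    (fun e => measurableSet_lt (measurable_pi_apply e) measurable_const) P

lemma measurableSet_rank (i j : Fin n) (P : ℕ → Prop) :
    MeasurableSet {C : Sym2 (Fin n) → ℝ | P (rank C i j)} := by
  unfold rank
  apply measurableSet_filter (fun l (C : Sym2 (Fin n) → ℝ) => l ≠ i ∧ C s(i, l) < C s(i, j))
    (fun l => ?_) (fun S => P (#S))
  exact (MeasurableSet.const _).inter
    (measurableSet_lt (measurable_pi_apply _) (measurable_pi_apply _))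

lemma measurableSet_evU (i j : Fin n) : MeasurableSet (evU t k i j) :=
  (measurableSet_below t (fun A => nbr A i = ∅)).inter (measurableSet_rank i j (· < k))

lemma measurableSet_evV (i j : Fin n) : MeasurableSet (evV t k i j) :=
  measurableSet_below t (fun A => #(nbr A j \ {i}) < k)

lemma mem_star {i : Fin n} {e : Sym2 (Fin n)} : e ∈ star i ↔ ∃ l, l ≠ i ∧ s(i, l) = e := by
  simp [star]

lemma evU_dep {i j : Fin n} (hij : j ≠ i) (C C' : Sym2 (Fin n) → ℝ)
    (h : ∀ e ∈ star i, C e = C' e) (hC : C ∈ evU t k i j) : C' ∈ evU t k i j := by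
  have h1 : ∀ l, l ≠ i → C s(i, l) = C' s(i, l) := fun l hl => h _ (mem_star.mpr ⟨l, hl, rfl⟩)
  have h2 : nbr (below t C) i = nbr (below t C') i := by
    ext l
    simp only [mem_nbr, mem_below]
    constructor
    · rintro ⟨h3, h4⟩; exact ⟨h3, by rw [← h1 l h3]; exact h4⟩
    · rintro ⟨h3, h4⟩; exact ⟨h3, by rw [h1 l h3]; exact h4⟩
  have h3 : rank C i j = rank C' i j := by
    unfold rank
    congr 1
    ext l
    simp only [mem_filter, mem_univ, true_and]
    constructor
    · rintro ⟨h3, h4⟩; exact ⟨h3, by rw [← h1 l h3, ← h1 j hij]; exact h4⟩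
    · rintro ⟨h3, h4⟩; exact ⟨h3, by rw [h1 l h3, h1 j hij]; exact h4⟩
  unfold evU at hC ⊢
  rw [Set.mem_ofPred_eq] at hC ⊢
  rw [← h2, ← h3]
  exact hC

lemma evV_dep {i j : Fin n} (C C' : Sym2 (Fin n) → ℝ)
    (h : ∀ e ∈ star j \ {s(j, i)}, C e = C' e) (hC : C ∈ evV t k i j) : C' ∈ evV t k i j := by
  have h1 : ∀ l, l ≠ j → l ≠ i → C s(j, l) = C' s(j, l) := by
    intro l hl hli
    apply h
    rw [mem_sdiff, mem_singleton]
    refine ⟨mem_star.mpr ⟨l, hl, rfl⟩, fun h2 => hli (mk_injective j h2)⟩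
  have h2 : nbr (below t C) j \ {i} = nbr (below t C') j \ {i} := by
    ext l
    simp only [mem_nbr, mem_below, mem_sdiff, mem_singleton]
    constructor
    · rintro ⟨⟨h3, h4⟩, h5⟩; exact ⟨⟨h3, by rw [← h1 l h3 h5]; exact h4⟩, h5⟩
    · rintro ⟨⟨h3, h4⟩, h5⟩; exact ⟨⟨h3, by rw [h1 l h3 h5]; exact h4⟩, h5⟩
  unfold evV at hC ⊢
  rw [Set.mem_ofPred_eq] at hC ⊢
  rw [← h2]
  exact hC

lemma star_inter_star {i j : Fin n} (h : i ≠ j) : star i ∩ star j = {s(i, j)} := by
  ext e
  simp only [mem_inter, star, mem_image, mem_erase, mem_univ, and_true, mem_singleton]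
  constructor
  · rintro ⟨⟨a, ha, rfl⟩, ⟨b, hb, hab⟩⟩
    rw [Sym2.eq_iff] at hab
    rcases hab with ⟨h1, h2⟩ | ⟨h1, h2⟩
    · exact absurd h1.symm h
    · rw [h1]
  · rintro rfl
    exact ⟨⟨j, h.symm, rfl⟩, ⟨i, h, Sym2.eq_swap⟩⟩

lemma disjoint_stars {i j : Fin n} (h : j ≠ i) : Disjoint (star i) (star j \ {s(j, i)}) := by
  rw [disjoint_left]
  intro e he he'
  rw [mem_sdiff, mem_singleton] at he'
  have h1 : e ∈ star i ∩ star j := mem_inter.mpr ⟨he, he'.1⟩
  rw [star_inter_star h.symm, mem_singleton] at h1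
  exact he'.2 (h1.trans Sym2.eq_swap)

variable (ν : Measure ℝ) [IsProbabilityMeasure ν]

lemma measure_evUV {i j : Fin n} (h : j ≠ i) :
    (Measure.pi fun _ : Sym2 (Fin n) => ν) (evU t k i j ∩ evV t k i j) =
      (Measure.pi fun _ : Sym2 (Fin n) => ν) (evU t k i j) *
        (Measure.pi fun _ : Sym2 (Fin n) => ν) (evV t k i j) :=
  indep_of_dependsOn ν (star i) (star j \ {s(j, i)}) (disjoint_stars h) _ _
    (measurableSet_evU t k i j) (measurableSet_evV t k i j)
    (fun C C' hC => evU_dep t k h C C' hC) (fun C C' hC => evV_dep t k C C' hC)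

lemma measure_evV_le {q θ : ℝ} (h0 : 0 ≤ q) (h1 : q ≤ 1) (hν : ν (Set.Iio t) = ENNReal.ofReal q)
    (hθ : 0 ≤ θ) {i j : Fin n} (h : j ≠ i) :
    (Measure.pi fun _ : Sym2 (Fin n) => ν) (evV t k i j) ≤
      ENNReal.ofReal (Real.exp (θ * k - q * (n - 2 : ℕ) * (1 - Real.exp (-θ)))) := by
  have h2 : (Measure.pi fun _ : Sym2 (Fin n) => ν) (evV t k i j) =
      ENNReal.ofReal (pw q (fun A : Finset (Sym2 (Fin n)) => #(nbr A j \ {i}) < k)) :=
    below_prob ν h0 h1 hν (fun A => #(nbr A j \ {i}) < k)
  rw [h2]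
  apply ENNReal.ofReal_le_ofReal
  have h3 := lower_tail h0 h1 hθ (star j \ {s(j, i)}) (k : ℝ)
  have h4 : #(star j \ {s(j, i)}) = n - 2 := by
    rw [card_sdiff_of_subset, card_star, card_singleton]
    · omega
    · rw [singleton_subset_iff]; exact mem_star.mpr ⟨i, h.symm, rfl⟩
  rw [h4] at h3
  refine le_trans (pw_mono h0 h1 ?_) h3
  intro A hA
  have h5 : #(A ∩ (star j \ {s(j, i)})) = #(nbr A j \ {i}) := by
    rw [← card_image_of_injective (nbr A j \ {i}) (mk_injective j)]
    congr 1
    ext e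
    simp only [mem_image, mem_nbr, mem_inter, mem_star, mem_sdiff, mem_singleton]
    constructor
    · rintro ⟨h1, ⟨l, h2, rfl⟩, h3⟩
      exact ⟨l, ⟨⟨h2, h1⟩, fun h => h3 (by rw [h])⟩, rfl⟩
    · rintro ⟨l, ⟨⟨h2, h1⟩, h3⟩, rfl⟩
      exact ⟨h1, ⟨l, h2, rfl⟩, fun h => h3 (mk_injective j h)⟩
  rw [h5]
  exact_mod_cast hA.le

lemma sum_measure_evU_le [NullSingletonClass ν] {q : ℝ} (h0 : 0 ≤ q) (h1 : q ≤ 1)
    (hν : ν (Set.Iio t) = ENNReal.ofReal q) (i : Fin n) :
    ∑ j ∈ univ.erase i, (Measure.pi fun _ : Sym2 (Fin n) => ν) (evU t k i j) ≤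
      k * ENNReal.ofReal ((1 - q) ^ (n - 1)) := by
  set μ := (Measure.pi fun _ : Sym2 (Fin n) => ν) with hμ
  have hA : MeasurableSet {C : Sym2 (Fin n) → ℝ | nbr (below t C) i = ∅} :=
    measurableSet_below t (fun A => nbr A i = ∅)
  have h2 : μ {C : Sym2 (Fin n) → ℝ | nbr (below t C) i = ∅} =
      ENNReal.ofReal ((1 - q) ^ (n - 1)) := by
    rw [hμ, below_prob ν h0 h1 hν (fun A => nbr A i = ∅)]
    congr 1
    rw [← card_star i, ← sum_wgt_disjoint q (star i)]
    unfold pw
    apply sum_congr rfl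
    intro A _
    simp only [nbr_eq_empty_iff]
  calc ∑ j ∈ univ.erase i, μ (evU t k i j)
      = ∑ j ∈ univ.erase i, ∫⁻ C, (evU t k i j).indicator 1 C ∂μ := by
        apply sum_congr rfl
        intro j _
        rw [lintegral_indicator_one (measurableSet_evU t k i j)]
    _ = ∫⁻ C, ∑ j ∈ univ.erase i, (evU t k i j).indicator 1 C ∂μ := by
        rw [lintegral_finsetSum]
        intro j _
        exact measurable_one.indicator (measurableSet_evU t k i j)
    _ ≤ ∫⁻ C, k * {C : Sym2 (Fin n) → ℝ | nbr (below t C) i = ∅}.indicator 1 C ∂μ := by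
        apply lintegral_mono_ae
        filter_upwards [ae_injective ν] with C hC
        by_cases hC2 : nbr (below t C) i = ∅
        · have h3 : ∀ j, (evU t k i j).indicator (1 : (Sym2 (Fin n) → ℝ) → ENNReal) C =
              if rank C i j < k then 1 else 0 := by
            intro j
            classical
            rw [Set.indicator_apply]
            unfold evU
            simp [hC2]
          simp_rw [h3]
          rw [Set.indicator_of_mem (by exact hC2), Pi.one_apply, mul_one, ← sum_filter,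
            sum_const, nsmul_eq_mul, mul_one]
          have h4 : (univ.erase i).filter (fun j => rank C i j < k) =
              univ.filter (fun j => j ≠ i ∧ rank C i j < k) := by
            ext j; simp
          rw [h4]
          exact_mod_cast card_preferred_le hC i k
        · rw [Set.indicator_of_notMem (by exact hC2), mul_zero, nonpos_iff_eq_zero]
          apply sum_eq_zero
          intro j _
          apply Set.indicator_of_notMem
          intro h
          exact hC2 h.1
    _ = k * μ {C : Sym2 (Fin n) → ℝ | nbr (below t C) i = ∅} := by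
        rw [lintegral_const_mul _ (measurable_one.indicator hA), lintegral_indicator_one hA]
    _ = _ := by rw [h2]

/-- if the graph is connected, every vertex without an edge cheaper than `t` has a neighbour -/
lemma iso_le_of_connected {C : Sym2 (Fin n) → ℝ} (hn : 2 ≤ n)
    (hC : (mutualGraph k C).Connected) :
    (isoCount (below t C) : ENNReal) ≤
      ∑ i : Fin n, ∑ j ∈ univ.erase i, (evU t k i j ∩ evV t k i j).indicator 1 C := by
  classical
  unfold isoCount
  rw [card_filter]
  push_cast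
  apply sum_le_sum
  intro i _
  by_cases hi : nbr (below t C) i = ∅
  · rw [if_pos hi]
    have : Nontrivial (Fin n) := Fin.nontrivial_iff_two_le.mpr hn
    obtain ⟨j, hj⟩ := hC.preconnected.exists_adj_of_nontrivial i
    have hji : j ≠ i := hj.1.symm
    have hmem : C ∈ evU t k i j ∩ evV t k i j := by
      refine ⟨⟨hi, hj.2.1⟩, ?_⟩
      have h1 : ¬ C s(i, j) < t := by
        intro h
        have : j ∈ nbr (below t C) i := mem_nbr.mpr ⟨hji, mem_below.mpr h⟩
        rw [hi] at this
        simp at this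
      refine lt_of_le_of_lt (card_le_card ?_) hj.2.2
      intro l hl
      simp only [mem_sdiff, mem_nbr, mem_below, mem_singleton, mem_filter, mem_univ,
        true_and] at hl ⊢
      refine ⟨hl.1.1, hl.1.2.trans_le ?_⟩
      rw [Sym2.eq_swap]
      exact not_lt.mp h1
    calc (1 : ENNReal) = (evU t k i j ∩ evV t k i j).indicator 1 C := by
          rw [Set.indicator_of_mem hmem, Pi.one_apply]
      _ ≤ _ := single_le_sum (f := fun j => (evU t k i j ∩ evV t k i j).indicator
            (1 : (Sym2 (Fin n) → ℝ) → ENNReal) C) (fun _ _ => zero_le)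
            (mem_erase.mpr ⟨hji, mem_univ j⟩)
  · rw [if_neg hi]
    exact zero_le

/-- finite-`n` upper bound on the probability of connectedness -/
lemma measure_connected_le [NullSingletonClass ν] {q θ : ℝ} (h0 : 0 ≤ q) (h1 : q < 1)
    (hν : ν (Set.Iio t) = ENNReal.ofReal q) (hθ : 0 ≤ θ) (hn : 2 ≤ n) :
    (Measure.pi fun _ : Sym2 (Fin n) => ν) {C | (mutualGraph k C).Connected} ≤
      ENNReal.ofReal (4 * (1 / (n * (1 - q) ^ (n - 1)) + q / (1 - q)) +
        2 * (k * Real.exp (θ * k - q * (n - 2 : ℕ) * (1 - Real.exp (-θ))))) := by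
  set μ := (Measure.pi fun _ : Sym2 (Fin n) => ν) with hμ
  set m : ℝ := n * (1 - q) ^ (n - 1) with hm
  set r : ℝ := Real.exp (θ * k - q * (n - 2 : ℕ) * (1 - Real.exp (-θ))) with hr
  have hq : 0 < 1 - q := by linarith
  have hn0 : (0 : ℝ) < n := by exact_mod_cast (by omega : 0 < n)
  have hm0 : 0 < m := by positivity
  have hr0 : 0 < r := Real.exp_pos _
  set M : (Sym2 (Fin n) → ℝ) → ENNReal := fun C =>
    ∑ i : Fin n, ∑ j ∈ univ.erase i, (evU t k i j ∩ evV t k i j).indicator 1 C with hM
  have hmeas : ∀ i j : Fin n, MeasurableSet (evU t k i j ∩ evV t k i j) := fun i j =>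
    (measurableSet_evU t k i j).inter (measurableSet_evV t k i j)
  have hMm : Measurable M := by
    apply Finset.measurable_fun_sum
    intro i _
    apply Finset.measurable_fun_sum
    intro j _
    exact measurable_one.indicator (hmeas i j)
  -- first moment of `M`
  have hEM : ∫⁻ C, M C ∂μ ≤ ENNReal.ofReal (m * (k * r)) := by
    calc ∫⁻ C, M C ∂μ = ∑ i : Fin n, ∑ j ∈ univ.erase i, μ (evU t k i j ∩ evV t k i j) := by
          rw [hM, lintegral_finsetSum]
          · apply sum_congr rfl
            intro i _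
            rw [lintegral_finsetSum]
            · apply sum_congr rfl
              intro j _
              rw [lintegral_indicator_one (hmeas i j)]
            · intro j _
              exact measurable_one.indicator (hmeas i j)
          · intro i _
            apply Finset.measurable_fun_sum
            intro j _
            exact measurable_one.indicator (hmeas i j)
      _ ≤ ∑ i : Fin n, ∑ j ∈ univ.erase i, μ (evU t k i j) * ENNReal.ofReal r := by
          apply sum_le_sum
          intro i _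
          apply sum_le_sum
          intro j hj
          rw [hμ, measure_evUV t k ν (ne_of_mem_erase hj)]
          gcongr
          exact measure_evV_le t k ν h0 h1.le hν hθ (ne_of_mem_erase hj)
      _ ≤ ∑ i : Fin n, (k * ENNReal.ofReal ((1 - q) ^ (n - 1))) * ENNReal.ofReal r := by
          apply sum_le_sum
          intro i _
          rw [← sum_mul]
          gcongr
          exact sum_measure_evU_le t k ν h0 h1.le hν i
      _ = ENNReal.ofReal (m * (k * r)) := by
          rw [sum_const, card_univ, Fintype.card_fin, nsmul_eq_mul, hm]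
          rw [show (n * (1 - q) ^ (n - 1) * (k * r) : ℝ) = n * ((k * (1 - q) ^ (n - 1)) * r) by
            ring]
          rw [ENNReal.ofReal_mul (by positivity), ENNReal.ofReal_mul (by positivity),
            ENNReal.ofReal_mul (by positivity), ENNReal.ofReal_natCast, ENNReal.ofReal_natCast]
  have hMarkov : μ {C | ENNReal.ofReal (m / 2) ≤ M C} ≤ ENNReal.ofReal (2 * (k * r)) := by
    have h2 := meas_ge_le_lintegral_div hMm.aemeasurable (μ := μ)
      (ε := ENNReal.ofReal (m / 2)) (by
        rw [Ne, ENNReal.ofReal_eq_zero, not_le]; positivity) ENNReal.ofReal_ne_top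
    refine h2.trans ?_
    refine (ENNReal.div_le_div_right hEM _).trans ?_
    rw [← ENNReal.ofReal_div_of_pos (by positivity)]
    apply ENNReal.ofReal_le_ofReal
    apply le_of_eq
    field_simp
  have hfew : μ {C | (isoCount (below t C) : ℝ) ≤ m / 2} ≤
      ENNReal.ofReal (4 * (1 / m + q / (1 - q))) := by
    rw [hμ, below_prob ν h0 h1.le hν (fun A => (isoCount A : ℝ) ≤ m / 2)]
    exact ENNReal.ofReal_le_ofReal (prob_few_iso h0 h1 hn)
  have hsub : {C : Sym2 (Fin n) → ℝ | (mutualGraph k C).Connected} ⊆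
      {C | (isoCount (below t C) : ℝ) ≤ m / 2} ∪ {C | ENNReal.ofReal (m / 2) ≤ M C} := by
    intro C hC
    rw [Set.mem_union, Set.mem_ofPred_eq, Set.mem_ofPred_eq]
    rw [Set.mem_ofPred_eq] at hC
    by_cases h : (isoCount (below t C) : ℝ) ≤ m / 2
    · left; exact h
    · right
      rw [not_le] at h
      refine le_trans ?_ (iso_le_of_connected t k hn hC)
      rw [← ENNReal.ofReal_natCast]
      exact ENNReal.ofReal_le_ofReal h.le
  calc μ {C | (mutualGraph k C).Connected} ≤ _ := measure_mono hsub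
    _ ≤ _ := measure_union_le _ _
    _ ≤ ENNReal.ofReal (4 * (1 / m + q / (1 - q))) + ENNReal.ofReal (2 * (k * r)) := by
        gcongr
    _ = _ := by
        rw [← ENNReal.ofReal_add (by positivity) (by positivity)]

end Events

end Pool.Agent.Lib.MP_ba8b4a_pr
end

section

open Finset Filter
open scoped Topology

namespace Pool.Agent.Lib.MP_ba8b4a_pr

/-- the finite-`n` bound of `measure_connected_le` tends to `0` below the threshold -/
lemma tendsto_bound_zero {c : ℝ} (hc : c < 1) (k : ℕ → ℕ)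
    (hk : Tendsto (fun n => (k n : ℝ) / Real.log n) atTop (𝓝 c)) :
    ∃ (q : ℕ → ℝ) (θ : ℝ), 0 ≤ θ ∧ (∀ᶠ n in atTop, 0 < q n ∧ q n < 1) ∧
      Tendsto (fun n : ℕ => 4 * (1 / (n * (1 - q n) ^ (n - 1)) + q n / (1 - q n)) +
        2 * (k n * Real.exp (θ * k n - q n * (n - 2 : ℕ) * (1 - Real.exp (-θ)))))
        atTop (𝓝 0) := by
  set c₀ : ℝ := max c 0 with hc₀
  have hc₀1 : c₀ < 1 := max_lt hc one_pos
  have hc₀0 : 0 ≤ c₀ := le_max_right _ _
  have hc₀c : c ≤ c₀ := le_max_left _ _
  set c' : ℝ := (2 * c₀ + 1) / 3 with hc'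
  set c₂ : ℝ := (c₀ + 2) / 3 with hc₂
  have h01 : c₀ < c' := by rw [hc']; linarith
  have h12 : c' < c₂ := by rw [hc', hc₂]; linarith
  have h21 : c₂ < 1 := by rw [hc₂]; linarith
  have hc'0 : 0 < c' := by linarith
  have hc₂0 : 0 < c₂ := by linarith
  set θ : ℝ := (c₂ - c') / (2 * c₂) with hθ
  have hθ0 : 0 < θ := by rw [hθ]; apply div_pos <;> linarith
  have hθ1 : θ ≤ 1 := by rw [hθ, div_le_one (by positivity)]; linarith
  have hθc : c₂ * θ = (c₂ - c') / 2 := by rw [hθ]; field_simp
  set δ : ℝ := c₂ * (1 - Real.exp (-θ)) - c' * θ with hδ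
  have hexp1 : Real.exp (-θ) ≤ 1 - θ + θ ^ 2 := by
    have h1 := Real.abs_exp_sub_one_sub_id_le (x := -θ) (by rw [abs_neg, abs_of_pos hθ0]; exact hθ1)
    have := (abs_le.mp h1).2
    nlinarith
  have hexp0 : 0 < Real.exp (-θ) := Real.exp_pos _
  have hδ0 : 0 < δ := by
    have h3 : c₂ * (θ - θ ^ 2) ≤ c₂ * (1 - Real.exp (-θ)) := by
      apply mul_le_mul_of_nonneg_left _ hc₂0.le
      linarith
    have h4 : c₂ * (θ - θ ^ 2) - c' * θ = θ * ((c₂ - c') / 2) := by
      have : c₂ * (θ - θ ^ 2) - c' * θ = θ * (c₂ - c' - c₂ * θ) := by ring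
      rw [this, hθc]; ring
    have h5 : 0 < θ * ((c₂ - c') / 2) := by
      apply mul_pos hθ0; linarith
    rw [hδ]; linarith
  set c₃ : ℝ := (1 + c₂) / 2 with hc₃
  have h31 : c₃ < 1 := by rw [hc₃]; linarith
  have h23 : c₂ < c₃ := by rw [hc₃]; linarith
  set q : ℕ → ℝ := fun n => c₂ * Real.log n / n with hq
  have hqlim : Tendsto q atTop (𝓝 0) := by
    have h2 := (Real.isLittleO_log_id_atTop.tendsto_div_nhds_zero).comp
      (tendsto_natCast_atTop_atTop (R := ℝ))
    have h3 := h2.const_mul c₂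
    rw [mul_zero] at h3
    refine h3.congr fun n => ?_
    simp only [Function.comp_apply, id, hq]
    ring
  have hqpos : ∀ᶠ n : ℕ in atTop, 0 < q n := by
    filter_upwards [tendsto_log_nat.eventually_gt_atTop 0, eventually_gt_atTop 0] with n h3 h4
    have : (0 : ℝ) < n := by exact_mod_cast h4
    simp only [hq]; positivity
  refine ⟨q, θ, hθ0.le, ?_, ?_⟩
  · filter_upwards [hqlim.eventually_lt_const (show (0 : ℝ) < 1 by norm_num), hqpos] with n h2 h3
    exact ⟨h3, h2⟩
  -- the dominating function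
  have hB : Tendsto (fun n : ℕ => 4 * (Real.exp (-((1 - c₃) * Real.log n)) + 2 * q n) +
      2 * (c' * Real.exp (2 * c₂) * (Real.log n ^ 1 * Real.exp (-(δ * Real.log n)))))
      atTop (𝓝 0) := by
    have h1 : Tendsto (fun n : ℕ => Real.exp (-((1 - c₃) * Real.log n))) atTop (𝓝 0) := by
      have := (tendsto_pow_exp_neg 0 (show 0 < 1 - c₃ by linarith)).comp tendsto_log_nat
      refine this.congr fun n => ?_
      simp
    have h2 := (tendsto_pow_exp_neg 1 hδ0).comp tendsto_log_nat
    have h3 := ((h1.add (hqlim.const_mul 2)).const_mul 4).add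
      ((h2.const_mul (c' * Real.exp (2 * c₂))).const_mul 2)
    simpa using h3
  refine tendsto_of_tendsto_of_tendsto_of_le_of_le' tendsto_const_nhds hB ?_ ?_
  · filter_upwards [hqlim.eventually_lt_const (show (0 : ℝ) < 1 by norm_num), hqpos] with n h2 h3
    have : 0 < 1 - q n := by linarith
    positivity
  · filter_upwards [hqlim.eventually_lt_const (show (0 : ℝ) < 1 / 2 by norm_num), hqpos,
      hqlim.eventually_lt_const (show (0 : ℝ) < 1 - c₂ / c₃ by
        rw [sub_pos, div_lt_one (by linarith)]; exact h23),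
      hk.eventually_lt_const (show c < c' by linarith),
      tendsto_log_nat.eventually_gt_atTop 0, eventually_ge_atTop 2] with n h2 h3 h4 h5 h6 h7
    have hn0 : (0 : ℝ) < n := by exact_mod_cast (by omega : 0 < n)
    have hq1 : 0 < 1 - q n := by linarith
    have hnq : n * q n = c₂ * Real.log n := by
      simp only [hq]; field_simp
    have hlogn : Real.log n ≤ n := (Real.log_le_sub_one_of_pos hn0).trans (by linarith)
    -- k
    have hkn : (k n : ℝ) ≤ c' * Real.log n := by
      rw [div_lt_iff₀ h6] at h5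
      exact h5.le
    -- first term
    have hT1 : 1 / (n * (1 - q n) ^ (n - 1)) ≤ Real.exp (-((1 - c₃) * Real.log n)) := by
      rw [Real.exp_neg, one_div]
      apply inv_anti₀ (Real.exp_pos _)
      have h8 : Real.exp (-(q n / (1 - q n))) ≤ 1 - q n := by
        rw [Real.exp_neg, inv_le_comm₀ (Real.exp_pos _) hq1]
        have := Real.add_one_le_exp (q n / (1 - q n))
        have h9 : (1 - q n)⁻¹ = q n / (1 - q n) + 1 := by field_simp; ring
        rw [h9]; exact this
      have h10 : Real.exp (-(c₃ * Real.log n)) ≤ (1 - q n) ^ n := by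
        calc Real.exp (-(c₃ * Real.log n)) ≤ Real.exp (-(q n / (1 - q n))) ^ n := by
              rw [← Real.exp_nat_mul]
              apply Real.exp_le_exp.mpr
              have h11 : n * (q n / (1 - q n)) ≤ c₃ * Real.log n := by
                rw [← mul_div_assoc, hnq, div_le_iff₀ hq1]
                have h12 : c₂ ≤ c₃ * (1 - q n) := by
                  have : q n < 1 - c₂ / c₃ := h4
                  have h13 : c₂ / c₃ < 1 - q n := by linarith
                  rw [div_lt_iff₀ (by linarith)] at h13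
                  linarith
                calc c₂ * Real.log n ≤ (c₃ * (1 - q n)) * Real.log n := by gcongr
                  _ = _ := by ring
              linarith
          _ ≤ _ := pow_le_pow_left₀ (Real.exp_pos _).le h8 n
      have h14 : (1 - q n) ^ n ≤ (1 - q n) ^ (n - 1) :=
        pow_le_pow_of_le_one hq1.le (by linarith) (by omega)
      calc Real.exp ((1 - c₃) * Real.log n) = n * Real.exp (-(c₃ * Real.log n)) := by
            rw [show (1 - c₃) * Real.log n = Real.log n + -(c₃ * Real.log n) by ring,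
              Real.exp_add, Real.exp_log hn0]
        _ ≤ n * (1 - q n) ^ (n - 1) := by
            gcongr
            exact h10.trans h14
    have hT2 : q n / (1 - q n) ≤ 2 * q n := by
      rw [div_le_iff₀ hq1]
      nlinarith
    have hT3 : k n * Real.exp (θ * k n - q n * (n - 2 : ℕ) * (1 - Real.exp (-θ))) ≤
        c' * Real.exp (2 * c₂) * (Real.log n ^ 1 * Real.exp (-(δ * Real.log n))) := by
      have h8 : θ * k n - q n * (n - 2 : ℕ) * (1 - Real.exp (-θ)) ≤
          2 * c₂ + -(δ * Real.log n) := by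
        have h9 : q n * (n - 2 : ℕ) = c₂ * Real.log n - 2 * q n := by
          rw [← hnq, Nat.cast_sub h7]; push_cast; ring
        have h10 : q n ≤ c₂ := by
          have : n * q n ≤ n * c₂ := by
            rw [hnq, mul_comm (n : ℝ)]; gcongr
          exact le_of_mul_le_mul_left this hn0
        rw [h9]
        have h11 : θ * k n ≤ θ * (c' * Real.log n) := by gcongr
        have h12 : (1 - Real.exp (-θ)) ≤ 1 := by linarith
        have h13 : 0 ≤ 1 - Real.exp (-θ) := by
          have := Real.exp_le_one_iff.mpr (show -θ ≤ 0 by linarith)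
          linarith
        have h14 : 2 * q n * (1 - Real.exp (-θ)) ≤ 2 * c₂ := by
          calc 2 * q n * (1 - Real.exp (-θ)) ≤ 2 * c₂ * 1 := by gcongr
            _ = _ := by ring
        have h15 : -(δ * Real.log n) = θ * (c' * Real.log n) -
            c₂ * Real.log n * (1 - Real.exp (-θ)) := by rw [hδ]; ring
        rw [h15]
        nlinarith
      calc k n * Real.exp (θ * k n - q n * (n - 2 : ℕ) * (1 - Real.exp (-θ)))
          ≤ (c' * Real.log n) * Real.exp (2 * c₂ + -(δ * Real.log n)) := by gcongr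
        _ = _ := by rw [Real.exp_add]; ring
    gcongr

end Pool.Agent.Lib.MP_ba8b4a_pr
end
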